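import Mathlib

/-!
# Linnik's identity

For every `n` and every `K ≥ Ω n`

  `∑ k ∈ Icc 1 K, (-1) ^ (k - 1) / k * #{(n₁, …, n_k) : nᵢ ≥ 2, n₁ ⋯ n_k = n} = Λ n / log n`,

first in terms of the `k`-th convolution power of `zetaOne = ζ - 1`, then for rough numbers.
-/

set_option autoImplicit false

namespace Pool.Agent.Work.MP_a8fbd7_nt.OX.ID

open Finset ArithmeticFunction
open scoped ArithmeticFunction.zeta ArithmeticFunction.Moebius ArithmeticFunction.Omega

theorem af_sub (f g : ArithmeticFunction ℝ) (n : ℕ) : (f - g) n = f n - g n := by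
  rw [sub_eq_add_neg, ArithmeticFunction.add_apply, ArithmeticFunction.neg_apply, sub_eq_add_neg]

theorem af_smul (c : ℝ) (f : ArithmeticFunction ℝ) (n : ℕ) : (c • f) n = c * f n := by
  rw [smul_map, smul_eq_mul]

theorem af_sum {ι : Type*} (s : Finset ι) (f : ι → ArithmeticFunction ℝ) (n : ℕ) :
    (∑ i ∈ s, f i) n = ∑ i ∈ s, f i n := by
  classical
  induction s using Finset.induction_on with
  | empty => simp
  | insert a s ha ih => rw [sum_insert ha, sum_insert ha, ArithmeticFunction.add_apply, ih]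

/-- The indicator function of the integers `≥ 2`. -/
noncomputable def zetaOne : ArithmeticFunction ℝ := (ζ : ArithmeticFunction ℝ) - 1

theorem zetaOne_apply (n : ℕ) : zetaOne n = if 2 ≤ n then 1 else 0 := by
  unfold zetaOne
  rw [af_sub, natCoe_apply, zeta_apply, one_apply]
  rcases n with _ | _ | n
  · simp
  · simp
  · simp

/-- Multiplication by the logarithm. -/
noncomputable def dl (f : ArithmeticFunction ℝ) : ArithmeticFunction ℝ := pmul f log

theorem dl_apply (f : ArithmeticFunction ℝ) (n : ℕ) : dl f n = f n * Real.log n := by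
  unfold dl
  rw [pmul_apply, log_apply]

theorem dl_mul (f g : ArithmeticFunction ℝ) : dl (f * g) = dl f * g + f * dl g := by
  ext n
  rw [dl_apply, ArithmeticFunction.add_apply, mul_apply, mul_apply, mul_apply, ← sum_add_distrib, sum_mul]
  refine sum_congr rfl fun p hp => ?_
  obtain ⟨h1, h2⟩ := Nat.mem_divisorsAntidiagonal.1 hp
  have ha : (p.1 : ℝ) ≠ 0 := by
    intro h
    have : p.1 = 0 := by exact_mod_cast h
    rw [this, zero_mul] at h1
    exact h2 h1.symm
  have hb : (p.2 : ℝ) ≠ 0 := by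
    intro h
    have : p.2 = 0 := by exact_mod_cast h
    rw [this, mul_zero] at h1
    exact h2 h1.symm
  rw [dl_apply, dl_apply, ← h1, Nat.cast_mul, Real.log_mul ha hb]
  ring

theorem dl_pow (f : ArithmeticFunction ℝ) : ∀ k : ℕ, dl (f ^ (k + 1)) = (k + 1 : ℝ) • (f ^ k * dl f)
  | 0 => by simp
  | k + 1 => by
    rw [pow_succ, dl_mul, dl_pow f k, smul_mul_assoc,
      show f ^ k * dl f * f = f ^ (k + 1) * dl f by ring]
    ext n
    rw [ArithmeticFunction.add_apply, af_smul, af_smul]
    push_cast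
    ring

/-- `f` vanishes at the `n` with `Ω n < j`. -/
def Ord (j : ℕ) (f : ArithmeticFunction ℝ) : Prop := ∀ n : ℕ, n ≠ 0 → Ω n < j → f n = 0

theorem Ord.mul {i j : ℕ} {f g : ArithmeticFunction ℝ} (hf : Ord i f) (hg : Ord j g) :
    Ord (i + j) (f * g) := by
  intro n hn h
  rw [mul_apply]
  refine sum_eq_zero fun p hp => ?_
  obtain ⟨h1, h2⟩ := Nat.mem_divisorsAntidiagonal.1 hp
  have ha : p.1 ≠ 0 := by
    intro h
    rw [h, zero_mul] at h1
    exact h2 h1.symm
  have hb : p.2 ≠ 0 := by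
    intro h
    rw [h, mul_zero] at h1
    exact h2 h1.symm
  have h3 : Ω n = Ω p.1 + Ω p.2 := by rw [← h1, cardFactors_mul ha hb]
  by_cases hi : Ω p.1 < i
  · rw [hf _ ha hi, zero_mul]
  · rw [hg _ hb (by omega), mul_zero]

theorem Ord.zero (f : ArithmeticFunction ℝ) : Ord 0 f := fun n _ h => absurd h (by omega)

theorem Ord.pow {f : ArithmeticFunction ℝ} (hf : Ord 1 f) : ∀ k : ℕ, Ord k (f ^ k)
  | 0 => Ord.zero _
  | k + 1 => by
    rw [pow_succ]
    exact (Ord.pow hf k).mul hf

theorem ord_zetaOne : Ord 1 zetaOne := by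
  intro n hn h
  have : n = 0 ∨ n = 1 := cardFactors_eq_zero_iff_eq_zero_or_one.1 (by omega)
  rcases this with h | h
  · exact absurd h hn
  · rw [h, zetaOne_apply, if_neg (by norm_num)]

theorem ord_log : Ord 1 (log : ArithmeticFunction ℝ) := by
  intro n hn h
  have : n = 0 ∨ n = 1 := cardFactors_eq_zero_iff_eq_zero_or_one.1 (by omega)
  rcases this with h | h
  · exact absurd h hn
  · rw [h, log_apply, Nat.cast_one, Real.log_one]

theorem dl_zetaOne : dl zetaOne = log := by
  ext n
  rw [dl_apply, zetaOne_apply, log_apply]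
  rcases n with _ | _ | n
  · simp
  · simp
  · rw [if_pos (by omega), one_mul]

/-- The truncated logarithm of `ζ = 1 + zetaOne`. -/
noncomputable def linnikSum (K : ℕ) : ArithmeticFunction ℝ :=
  ∑ k ∈ range K, ((-1 : ℝ) ^ k / (k + 1)) • zetaOne ^ (k + 1)

theorem dl_sum {ι : Type*} (s : Finset ι) (f : ι → ArithmeticFunction ℝ) :
    dl (∑ i ∈ s, f i) = ∑ i ∈ s, dl (f i) := by
  classical
  induction s using Finset.induction_on with
  | empty =>
    ext n
    rw [sum_empty, sum_empty, dl_apply]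
    simp
  | insert a s ha ih =>
    rw [sum_insert ha, sum_insert ha, ← ih]
    ext n
    rw [dl_apply, ArithmeticFunction.add_apply, ArithmeticFunction.add_apply, dl_apply, dl_apply, add_mul]

theorem dl_smul (c : ℝ) (f : ArithmeticFunction ℝ) : dl (c • f) = c • dl f := by
  ext n
  rw [dl_apply, smul_map, smul_map, dl_apply, smul_eq_mul, smul_eq_mul, mul_assoc]

theorem dl_linnikSum (K : ℕ) :
    dl (linnikSum K) = (∑ k ∈ range K, (-zetaOne) ^ k) * log := by
  unfold linnikSum
  rw [dl_sum, sum_mul]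
  refine sum_congr rfl fun k _ => ?_
  rw [dl_smul, dl_pow, dl_zetaOne, smul_smul]
  have h1 : ((-1 : ℝ) ^ k / (k + 1)) * (k + 1 : ℝ) = (-1) ^ k := by
    have : (k + 1 : ℝ) ≠ 0 := by positivity
    field_simp
  rw [h1]
  have h2 : (-zetaOne) ^ k = ((-1 : ℝ) ^ k) • zetaOne ^ k := by
    rcases Nat.even_or_odd k with h | h
    · rw [Even.neg_pow h zetaOne, Even.neg_one_pow h, one_smul]
    · rw [Odd.neg_pow h zetaOne, Odd.neg_one_pow h, neg_smul, one_smul]
  rw [h2, smul_mul_assoc]

theorem zeta_mul_dl (K : ℕ) :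
    (ζ : ArithmeticFunction ℝ) * dl (linnikSum K) = log - (-zetaOne) ^ K * log := by
  have h1 : (ζ : ArithmeticFunction ℝ) = 1 - (-zetaOne) := by
    unfold zetaOne
    ring
  rw [dl_linnikSum, ← mul_assoc, h1, mul_comm (1 - _), geom_sum_mul_neg, sub_mul, one_mul]

theorem dl_linnikSum_eq (K : ℕ) :
    dl (linnikSum K) = Λ - (μ : ArithmeticFunction ℝ) * ((-zetaOne) ^ K * log) := by
  have h1 : (μ : ArithmeticFunction ℝ) * ((ζ : ArithmeticFunction ℝ) * dl (linnikSum K)) =
      (μ : ArithmeticFunction ℝ) * (log - (-zetaOne) ^ K * log) := by rw [zeta_mul_dl K]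
  rw [← mul_assoc, coe_moebius_mul_coe_zeta, one_mul, mul_sub] at h1
  rw [h1, ← vonMangoldt_mul_zeta, mul_comm (Λ : ArithmeticFunction ℝ), ← mul_assoc,
    coe_moebius_mul_coe_zeta, one_mul]

/-- **Linnik's identity**, in the form with the logarithm on the left. -/
theorem log_mul_linnikSum {n K : ℕ} (hn : Ω n ≤ K) :
    linnikSum K n * Real.log n = Λ n := by
  rcases Nat.eq_zero_or_pos n with rfl | h0
  · simp
  rw [← dl_apply, dl_linnikSum_eq, af_sub]
  have h1 : Ord 1 (-zetaOne) := fun m hm h => by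
    rw [ArithmeticFunction.neg_apply, ord_zetaOne m hm h, neg_zero]
  have h2 : Ord (0 + (K + 1)) ((μ : ArithmeticFunction ℝ) * ((-zetaOne) ^ K * log)) :=
    (Ord.zero _).mul ((Ord.pow h1 K).mul ord_log)
  rw [h2 n h0.ne' (by omega), sub_zero]

theorem zetaOne_pow_one (k : ℕ) : (zetaOne ^ (k + 1)) 1 = 0 :=
  Ord.pow ord_zetaOne (k + 1) 1 one_ne_zero (by rw [cardFactors_one]; omega)

/-- **Linnik's identity**: `∑ k ∈ Icc 1 K, (-1) ^ (k - 1) / k * τ'_k n = Λ n / log n` for
`K ≥ Ω n`. -/
theorem linnikSum_eq {n K : ℕ} (hn : Ω n ≤ K) : linnikSum K n = Λ n / Real.log n := by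
  rcases Nat.lt_or_ge n 2 with h | h
  · rcases Nat.lt_or_ge n 1 with h' | h'
    · have : n = 0 := by omega
      rw [this]
      simp
    · have : n = 1 := by omega
      rw [this]
      unfold linnikSum
      rw [af_sum]
      simp only [af_smul, zetaOne_pow_one, mul_zero, sum_const_zero]
      simp
  · rw [← log_mul_linnikSum hn, mul_div_cancel_right₀]
    have : (1 : ℝ) < n := by exact_mod_cast h
    exact (Real.log_pos this).ne'

/-! ### Rough numbers -/

/-- All prime factors of `n` are larger than `z`. -/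
def Rough (z n : ℕ) : Prop := ∀ p : ℕ, p.Prime → p ∣ n → z < p

theorem Rough.mul {z a b : ℕ} (ha : Rough z a) (hb : Rough z b) : Rough z (a * b) :=
  fun p hp h => (hp.dvd_mul.1 h).elim (ha p hp) (hb p hp)

theorem Rough.of_dvd {z a b : ℕ} (hb : Rough z b) (h : a ∣ b) : Rough z a :=
  fun p hp h' => hb p hp (h'.trans h)

open Classical in
/-- The indicator function of the `z`-rough integers `≥ 2`. -/
noncomputable def roughOne (z : ℕ) : ArithmeticFunction ℝ :=
  ⟨fun n => if 2 ≤ n ∧ Rough z n then 1 else 0, by simp⟩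

open Classical in
theorem roughOne_apply (z n : ℕ) : roughOne z n = if 2 ≤ n ∧ Rough z n then 1 else 0 := rfl

open Classical in
theorem roughOne_pow_apply (z : ℕ) {n : ℕ} : ∀ (k : ℕ), (roughOne z ^ (k + 1)) n =
    if Rough z n then (zetaOne ^ (k + 1)) n else 0 := by
  intro k
  induction k generalizing n with
  | zero =>
    rw [zero_add, pow_one, pow_one, roughOne_apply, zetaOne_apply]
    by_cases h1 : 2 ≤ n <;> by_cases h2 : Rough z n <;> simp [h1, h2]
  | succ k ih =>
    rw [pow_succ, pow_succ zetaOne, mul_apply, mul_apply]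
    split_ifs with h
    · refine sum_congr rfl fun p hp => ?_
      obtain ⟨h1, h2⟩ := Nat.mem_divisorsAntidiagonal.1 hp
      have ha : Rough z p.1 := h.of_dvd (Dvd.intro _ h1)
      have hb : Rough z p.2 := h.of_dvd (Dvd.intro_left _ h1)
      rw [ih, if_pos ha, roughOne_apply, zetaOne_apply]
      by_cases h3 : 2 ≤ p.2
      · rw [if_pos h3, if_pos ⟨h3, hb⟩]
      · rw [if_neg h3, if_neg fun h => h3 h.1]
    · refine sum_eq_zero fun p hp => ?_
      obtain ⟨h1, h2⟩ := Nat.mem_divisorsAntidiagonal.1 hp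
      rw [ih, roughOne_apply]
      by_cases ha : Rough z p.1
      · rw [if_neg (c := 2 ≤ p.2 ∧ Rough z p.2), mul_zero]
        rintro ⟨-, hb⟩
        apply h
        rw [← h1]
        exact ha.mul hb
      · rw [if_neg ha, zero_mul]

theorem Rough.pow_lt {z : ℕ} : ∀ {n : ℕ}, 2 ≤ n → Rough z n → z ^ Ω n < n := by
  intro n
  induction n using Nat.strong_induction_on with
  | _ n ih =>
    intro h2 h
    obtain ⟨p, hp, m, rfl⟩ := Nat.exists_prime_and_dvd (show n ≠ 1 by omega)
    have hm : m ≠ 0 := by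
      rintro rfl
      simp at h2
    have hzp : z < p := h p hp (Dvd.intro _ rfl)
    rw [cardFactors_mul hp.ne_zero hm, cardFactors_apply_prime hp, add_comm, pow_succ, mul_comm p m]
    by_cases h1 : m = 1
    · subst h1
      simpa using hzp
    · have := ih m (by nlinarith [hp.two_le, Nat.pos_of_ne_zero hm]) (by omega)
        (h.of_dvd (Dvd.intro_left _ rfl))
      exact Nat.mul_lt_mul'' this hzp

/-- A `z`-rough number `n ≤ z ^ (K + 1)` has at most `K` prime factors. -/
theorem Rough.cardFactors_le {z n K : ℕ} (hz : 1 ≤ z) (h2 : 2 ≤ n) (h : Rough z n)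
    (hn : n ≤ z ^ (K + 1)) : Ω n ≤ K := by
  by_contra hcon
  have h1 := h.pow_lt h2
  have h3 : z ^ (K + 1) ≤ z ^ Ω n := Nat.pow_le_pow_right hz (by omega)
  omega

open Classical in
/-- **Linnik's identity for rough numbers**: for `n ≤ z ^ (K + 1)` the sum
`∑ k ∈ Icc 1 K, (-1) ^ (k - 1) / k * #{(n₁, …, n_k) : nᵢ ≥ 2 and z-rough, n₁ ⋯ n_k = n}` is
`Λ n / log n` if `n` is `z`-rough and `0` otherwise. -/
theorem rough_linnik {z n K : ℕ} (hz : 1 ≤ z) (hn : n ≤ z ^ (K + 1)) :
    ∑ k ∈ range K, ((-1 : ℝ) ^ k / (k + 1)) * (roughOne z ^ (k + 1)) n =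
      if Rough z n then Λ n / Real.log n else 0 := by
  simp only [roughOne_pow_apply]
  split_ifs with h
  · rcases Nat.lt_or_ge n 2 with h1 | h1
    · rcases Nat.lt_or_ge n 1 with h' | h'
      · have : n = 0 := by omega
        rw [this]
        simp
      · have : n = 1 := by omega
        rw [this]
        simp [zetaOne_pow_one]
    · rw [← linnikSum_eq (h.cardFactors_le hz h1 hn)]
      unfold linnikSum
      rw [af_sum]
      simp only [af_smul]
  · simp

end Pool.Agent.Work.MP_a8fbd7_nt.OX.ID
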