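import Pool.Agent.Work.MP_8d13b5_lc.Ex2.BT

/-!
# MP_a8fbd7_nt, OX/ID: upper bound sieve for rough numbers in an interval

`rough_count`: for `1 ≤ z` (natural) and `a ≤ b`, the number of `n` in `(a, b]` without a prime
factor `p ≤ z` is at most `(b - a) / Gs 1 z + z ^ 2`, where `log z ≤ Gs 1 z` and `1 ≤ Gs 1 z`.
`rough_count_log`: the same with `log z` (`2 ≤ z`).
`rough_count_real`: real endpoints, `x < n ≤ x + h`, bound `(h + 1) / log z + z ^ 2`.
The proof is the Selberg sieve of `MP_8d13b5_lc` (module Ex2) with `R = z`.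
-/

set_option autoImplicit false

open Finset

namespace Pool.Agent.Work.MP_a8fbd7_nt.OX.ID

open Pool.Agent.Work.MP_8d13b5_lc.Ex2 Pool.Agent.Work.MP_8d13b5_lc.Ex2.Sel

/-- `n` has no prime factor `p ≤ z` -/
def ZRough (z n : ℕ) : Prop := ∀ p : ℕ, p.Prime → p ≤ z → ¬ p ∣ n

theorem Lam_rough {z n : ℕ} (hz : 1 ≤ z) (hn : ZRough z n) : Lam 1 z n = 1 := by
  classical
  have h : (Dset 1 z).filter (fun d => d ∣ n) = {1} := by
    ext d
    rw [mem_filter, mem_singleton, C1.mem_Dset]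
    constructor
    · rintro ⟨⟨⟨_, h2⟩, _, _⟩, hd⟩
      by_contra hne
      obtain ⟨p, hp, hpd⟩ := Nat.exists_prime_and_dvd hne
      exact hn p hp ((Nat.le_of_dvd (by omega) hpd).trans h2) (hpd.trans hd)
    · rintro rfl
      exact ⟨⟨⟨le_rfl, hz⟩, squarefree_one, Nat.coprime_one_left 1⟩, one_dvd n⟩
  rw [Lam, h, sum_singleton, C1.lam_one hz]

open Classical in
/-- **Upper bound sieve.** The number of `n` in `(a, b]` without a prime factor `≤ z` is at most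
`(b - a) / Gs 1 z + z ^ 2`. -/
theorem rough_count (z a b : ℕ) (hz : 1 ≤ z) (hab : a ≤ b) :
    (((Ioc a b).filter (ZRough z)).card : ℝ) ≤ ((b : ℝ) - a) / Gs 1 z + (z : ℝ) ^ 2 := by
  obtain ⟨-, hlam, -, -, -, -⟩ := claimC1 1 z le_rfl hz
  have hform := claimC2' 1 z le_rfl hz
  have h1 : (((Ioc a b).filter (ZRough z)).card : ℝ) ≤ ∑ n ∈ Ioc a b, Lam 1 z n ^ 2 := by
    rw [card_eq_sum_ones, Nat.cast_sum]
    refine (sum_le_sum (fun n hn => ?_)).trans
      (sum_le_sum_of_subset_of_nonneg (filter_subset _ _) fun n _ _ => sq_nonneg _)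
    rw [mem_filter, mem_Ioc] at hn
    rw [Lam_rough hz hn.2]
    simp
  have h2 : ∀ n, Lam 1 z n ^ 2 = ∑ e ∈ Dset 1 z, ∑ f ∈ Dset 1 z,
      lam 1 z e * lam 1 z f * (if Nat.lcm e f ∣ n then (1 : ℝ) else 0) := by
    intro n
    rw [sq, Lam, sum_filter, sum_mul_sum]
    refine sum_congr rfl fun e _ => sum_congr rfl fun f _ => ?_
    by_cases he : e ∣ n
    · by_cases hf : f ∣ n
      · rw [if_pos he, if_pos hf, if_pos (Nat.lcm_dvd he hf), mul_one]
      · rw [if_neg hf, if_neg (fun h => hf ((Nat.dvd_lcm_right e f).trans h)), mul_zero, mul_zero]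
    · rw [if_neg he, if_neg (fun h => he ((Nat.dvd_lcm_left e f).trans h)), zero_mul, mul_zero]
  have h3 : ∑ n ∈ Ioc a b, Lam 1 z n ^ 2 = ∑ e ∈ Dset 1 z, ∑ f ∈ Dset 1 z,
      lam 1 z e * lam 1 z f * ((((Ioc a b).filter fun n => Nat.lcm e f ∣ n).card : ℕ) : ℝ) := by
    rw [sum_congr rfl fun n _ => h2 n, sum_comm]
    refine sum_congr rfl fun e _ => ?_
    rw [sum_comm]
    refine sum_congr rfl fun f _ => ?_
    rw [← mul_sum, ← sum_filter, sum_const, nsmul_eq_mul, mul_one]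
  have h4 : ∀ e ∈ Dset 1 z, ∀ f ∈ Dset 1 z,
      lam 1 z e * lam 1 z f * ((((Ioc a b).filter fun n => Nat.lcm e f ∣ n).card : ℕ) : ℝ) ≤
      ((b : ℝ) - a) * (lam 1 z e * lam 1 z f / (Nat.lcm e f : ℝ)) + 1 := by
    intro e he f hf
    rw [C1.mem_Dset] at he hf
    have hl : 0 < Nat.lcm e f := Nat.lcm_pos he.1.1 hf.1.1
    have h5 := count_mul a b (Nat.lcm e f) hab hl
    obtain ⟨x, hx⟩ : ∃ x : ℝ, x = ((((Ioc a b).filter fun n => Nat.lcm e f ∣ n).card : ℕ) : ℝ) -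
      ((b : ℝ) - a) / (Nat.lcm e f : ℝ) := ⟨_, rfl⟩
    rw [← hx] at h5
    have h6 : ((((Ioc a b).filter fun n => Nat.lcm e f ∣ n).card : ℕ) : ℝ) =
      ((b : ℝ) - a) / (Nat.lcm e f : ℝ) + x := by rw [hx]; ring
    rw [h6]
    have h7 : lam 1 z e * lam 1 z f * x ≤ 1 := by
      refine (le_abs_self _).trans ?_
      rw [abs_mul, abs_mul]
      calc |lam 1 z e| * |lam 1 z f| * |x| ≤ 1 * 1 * 1 := by
            gcongr
            · exact hlam e
            · exact hlam f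
        _ = 1 := by norm_num
    calc lam 1 z e * lam 1 z f * (((b : ℝ) - a) / (Nat.lcm e f : ℝ) + x)
        = ((b : ℝ) - a) * (lam 1 z e * lam 1 z f / (Nat.lcm e f : ℝ)) + lam 1 z e * lam 1 z f * x := by
          ring
      _ ≤ _ := by linarith
  have hcard : ((Dset 1 z).card : ℝ) ≤ z := by
    have : (Dset 1 z).card ≤ z := by
      refine (card_filter_le _ _).trans ?_
      simp
    exact_mod_cast this
  calc (((Ioc a b).filter (ZRough z)).card : ℝ) ≤ ∑ n ∈ Ioc a b, Lam 1 z n ^ 2 := h1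
    _ = ∑ e ∈ Dset 1 z, ∑ f ∈ Dset 1 z,
      lam 1 z e * lam 1 z f * ((((Ioc a b).filter fun n => Nat.lcm e f ∣ n).card : ℕ) : ℝ) := h3
    _ ≤ ∑ e ∈ Dset 1 z, ∑ f ∈ Dset 1 z,
        (((b : ℝ) - a) * (lam 1 z e * lam 1 z f / (Nat.lcm e f : ℝ)) + 1) :=
        sum_le_sum fun e he => sum_le_sum fun f hf => h4 e he f hf
    _ = ((b : ℝ) - a) * ∑ e ∈ Dset 1 z, ∑ f ∈ Dset 1 z,
        lam 1 z e * lam 1 z f / (Nat.lcm e f : ℝ) + ((Dset 1 z).card : ℝ) * ((Dset 1 z).card : ℝ) := by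
        rw [mul_sum]
        simp only [sum_add_distrib, sum_const, nsmul_eq_mul, mul_one, mul_sum]
    _ ≤ ((b : ℝ) - a) / Gs 1 z + (z : ℝ) ^ 2 := by
        rw [hform]
        have : ((Dset 1 z).card : ℝ) * ((Dset 1 z).card : ℝ) ≤ z * z := by gcongr
        have e : ((b : ℝ) - a) * (1 / Gs 1 z) = ((b : ℝ) - a) / Gs 1 z := by ring
        rw [e, sq]
        linarith

open Classical in
/-- the sieve bound with `log z` -/
theorem rough_count_log (z a b : ℕ) (hz : 2 ≤ z) (hab : a ≤ b) :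
    (((Ioc a b).filter (ZRough z)).card : ℝ) ≤ ((b : ℝ) - a) / Real.log z + (z : ℝ) ^ 2 := by
  refine (rough_count z a b (by omega) hab).trans ?_
  have hl : 0 < Real.log z := Real.log_pos (by exact_mod_cast hz)
  have h0 : (0 : ℝ) ≤ (b : ℝ) - a := by
    have : (a : ℝ) ≤ b := by exact_mod_cast hab
    linarith
  have := div_le_div_of_nonneg_left h0 hl (log_le_Gs z (by omega))
  linarith

open Classical in
/-- real endpoints: any finite set of `z`-rough naturals in `(x, x + h]`, `0 ≤ x`, `0 ≤ h`, has at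
most `(h + 1) / log z + z ^ 2` elements -/
theorem rough_count_real (z : ℕ) (x h : ℝ) (hz : 2 ≤ z) (hx : 0 ≤ x) (hh : 0 ≤ h)
    (S : Finset ℕ) (hS : ∀ n ∈ S, x < n ∧ (n : ℝ) ≤ x + h ∧ ZRough z n) :
    (S.card : ℝ) ≤ (h + 1) / Real.log z + (z : ℝ) ^ 2 := by
  have hl : 0 < Real.log z := Real.log_pos (by exact_mod_cast hz)
  have hab : ⌊x⌋₊ ≤ ⌊x + h⌋₊ := Nat.floor_mono (by linarith)
  have hsub : S ⊆ (Ioc ⌊x⌋₊ ⌊x + h⌋₊).filter (ZRough z) := by
    intro n hn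
    obtain ⟨h1, h2, h3⟩ := hS n hn
    rw [mem_filter, mem_Ioc]
    exact ⟨⟨(Nat.floor_lt hx).2 h1, Nat.le_floor h2⟩, h3⟩
  have h1 : (S.card : ℝ) ≤ (((Ioc ⌊x⌋₊ ⌊x + h⌋₊).filter (ZRough z)).card : ℝ) := by
    exact_mod_cast card_le_card hsub
  refine h1.trans ((rough_count_log z _ _ hz hab).trans ?_)
  have h2 : ((⌊x + h⌋₊ : ℕ) : ℝ) - (⌊x⌋₊ : ℕ) ≤ h + 1 := by
    have e1 := Nat.floor_le (show (0 : ℝ) ≤ x + h by linarith)
    have e2 := Nat.lt_floor_add_one x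
    linarith
  have h3 := div_le_div_of_nonneg_right h2 hl.le
  linarith

end Pool.Agent.Work.MP_a8fbd7_nt.OX.ID
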