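import Pool.Agent.Work.MP_a8fbd7_nt.OX.ID.Linnik

/-!
# Two levels of roughness

`rg z` is the indicator function of the `z`-rough integers `n ≥ 1`, `pb z0 z` that of the primes in
`(z0, z]`, and `mz z0 z` is the Möbius function restricted to the integers with all prime factors
in `(z0, z]`. Then `rg z = mz z0 z * rg z0`, and `mz z0 z` is `∑ (-1)^s / s! * (pb z0 z)^s` at
squarefree integers.
-/

set_option autoImplicit false

namespace Pool.Agent.Work.MP_a8fbd7_nt.OX.ID

open Finset ArithmeticFunction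
open scoped ArithmeticFunction.zeta ArithmeticFunction.Moebius ArithmeticFunction.Omega

/-- All prime factors of `n` are in `(z0, z]`. -/
def Btw (z0 z n : ℕ) : Prop := ∀ p : ℕ, p.Prime → p ∣ n → z0 < p ∧ p ≤ z

open Classical in
/-- The indicator function of the `z`-rough integers `n ≥ 1`. -/
noncomputable def rg (z : ℕ) : ArithmeticFunction ℝ :=
  ⟨fun n => if n ≠ 0 ∧ Rough z n then 1 else 0, by simp⟩

open Classical in
/-- The indicator function of the primes in `(z0, z]`. -/
noncomputable def pb (z0 z : ℕ) : ArithmeticFunction ℝ :=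
  ⟨fun n => if n.Prime ∧ z0 < n ∧ n ≤ z then 1 else 0, by
    simp [Nat.not_prime_zero]⟩

open Classical in
/-- The Möbius function restricted to the integers with all prime factors in `(z0, z]`. -/
noncomputable def mz (z0 z : ℕ) : ArithmeticFunction ℝ :=
  ⟨fun n => if Btw z0 z n then ((μ n : ℤ) : ℝ) else 0, by simp⟩

open Classical in
theorem rg_apply (z n : ℕ) : rg z n = if n ≠ 0 ∧ Rough z n then 1 else 0 := rfl

open Classical in
theorem pb_apply (z0 z n : ℕ) : pb z0 z n = if n.Prime ∧ z0 < n ∧ n ≤ z then 1 else 0 := rfl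

open Classical in
theorem mz_apply (z0 z n : ℕ) : mz z0 z n = if Btw z0 z n then ((μ n : ℤ) : ℝ) else 0 := rfl

theorem rg_eq (z : ℕ) : rg z = 1 + roughOne z := by
  classical
  ext n
  rw [ArithmeticFunction.add_apply, rg_apply, one_apply, roughOne_apply]
  rcases n with _ | _ | n
  · simp
  · have : Rough z 1 := fun p hp h => absurd (Nat.dvd_one.1 h) hp.one_lt.ne'
    simp [this]
  · by_cases h : Rough z (n + 1 + 1) <;> simp [h]

theorem Rough.mono {z0 z n : ℕ} (h : z0 ≤ z) (hn : Rough z n) : Rough z0 n :=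
  fun p hp hpn => h.trans_lt (hn p hp hpn)

theorem pair_ne {n : ℕ} {p : ℕ × ℕ} (hp : p ∈ n.divisorsAntidiagonal) :
    p.1 * p.2 = n ∧ p.1 ≠ 0 ∧ p.2 ≠ 0 ∧ n ≠ 0 := by
  obtain ⟨h1, h2⟩ := Nat.mem_divisorsAntidiagonal.1 hp
  refine ⟨h1, ?_, ?_, h2⟩
  · intro h
    rw [h, zero_mul] at h1
    exact h2 h1.symm
  · intro h
    rw [h, mul_zero] at h1
    exact h2 h1.symm

/-- The product of the prime factors of `n` which are at most `z`. -/
def lowRad (z n : ℕ) : ℕ := ∏ p ∈ n.primeFactors.filter (· ≤ z), p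

theorem lowRad_sqfree (z n : ℕ) : Squarefree (lowRad z n) := by
  unfold lowRad
  refine Finset.squarefree_prod_of_pairwise_isCoprime ?_ fun p hp =>
    (Nat.prime_of_mem_primeFactors (mem_filter.1 hp).1).squarefree
  intro p hp q hq hpq
  exact Nat.coprime_iff_isRelPrime.1 ((Nat.coprime_primes
    (Nat.prime_of_mem_primeFactors (mem_filter.1 hp).1)
    (Nat.prime_of_mem_primeFactors (mem_filter.1 hq).1)).2 hpq)

theorem lowRad_primeFactors (z n : ℕ) :
    (lowRad z n).primeFactors = n.primeFactors.filter (· ≤ z) :=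
  Nat.primeFactors_prod fun _ hp => Nat.prime_of_mem_primeFactors (mem_filter.1 hp).1

/-- **The two levels of roughness**, exact form. -/
theorem rg_expand {z0 z : ℕ} (h : z0 ≤ z) : rg z = mz z0 z * rg z0 := by
  classical
  ext n
  rcases eq_or_ne n 0 with rfl | hn
  · simp
  rw [mul_apply]
  by_cases hr : Rough z0 n
  · have h1 : ∑ p ∈ n.divisorsAntidiagonal, mz z0 z p.1 * rg z0 p.2 =
        ∑ d ∈ n.divisors, mz z0 z d := by
      rw [Nat.sum_divisorsAntidiagonal (f := fun a b => mz z0 z a * rg z0 b)]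
      refine sum_congr rfl fun d hd => ?_
      obtain ⟨hd1, -⟩ := Nat.mem_divisors.1 hd
      have : rg z0 (n / d) = 1 := by
        rw [rg_apply, if_pos]
        exact ⟨(Nat.div_pos (Nat.le_of_dvd (Nat.pos_of_ne_zero hn) hd1)
          (Nat.pos_of_mem_divisors hd)).ne', hr.of_dvd (Nat.div_dvd_of_dvd hd1)⟩
      rw [this, mul_one]
    have h2 : ∑ d ∈ n.divisors, mz z0 z d = ∑ d ∈ (lowRad z n).divisors, ((μ d : ℤ) : ℝ) := by
      have hsub : (lowRad z n).divisors ⊆ n.divisors := by
        refine Nat.divisors_subset_of_dvd hn ?_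
        exact (prod_dvd_prod_of_subset _ _ _ (filter_subset _ _)).trans (Nat.prod_primeFactors_dvd n)
      rw [← sum_subset hsub]
      · refine sum_congr rfl fun d hd => ?_
        rw [mz_apply, if_pos]
        intro p hp hpd
        have hp' : p ∈ (lowRad z n).primeFactors := Nat.mem_primeFactors.2
          ⟨hp, hpd.trans (Nat.dvd_of_mem_divisors hd), (lowRad_sqfree z n).ne_zero⟩
        rw [lowRad_primeFactors, mem_filter] at hp'
        exact ⟨hr p hp (Nat.dvd_of_mem_primeFactors hp'.1), hp'.2⟩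
      · intro d hd hd'
        rw [mz_apply]
        split_ifs with hb
        · have : μ d = 0 := by
            apply moebius_eq_zero_of_not_squarefree
            intro hs
            apply hd'
            rw [Nat.mem_divisors]
            refine ⟨?_, (lowRad_sqfree z n).ne_zero⟩
            rw [← Nat.prod_primeFactors_of_squarefree hs]
            unfold lowRad
            refine prod_dvd_prod_of_subset _ _ _ fun p hp => ?_
            have hp1 := Nat.prime_of_mem_primeFactors hp
            have hp2 := Nat.dvd_of_mem_primeFactors hp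
            rw [mem_filter]
            exact ⟨Nat.mem_primeFactors.2 ⟨hp1, hp2.trans (Nat.dvd_of_mem_divisors hd), hn⟩,
              (hb p hp1 hp2).2⟩
          rw [this]
          simp
        · rfl
    rw [h1, h2, rg_apply]
    have h3 : ∑ d ∈ (lowRad z n).divisors, ((μ d : ℤ) : ℝ) = if lowRad z n = 1 then 1 else 0 := by
      have h4 : ∑ d ∈ (lowRad z n).divisors, μ d = if lowRad z n = 1 then 1 else 0 := by
        rw [← coe_mul_zeta_apply, moebius_mul_coe_zeta, one_apply]
      rw [← Int.cast_sum, h4]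
      split_ifs <;> simp
    rw [h3]
    have h5 : (n ≠ 0 ∧ Rough z n) ↔ lowRad z n = 1 := by
      constructor
      · rintro ⟨-, h6⟩
        unfold lowRad
        have : n.primeFactors.filter (· ≤ z) = ∅ := by
          rw [filter_eq_empty_iff]
          intro p hp
          have := h6 p (Nat.prime_of_mem_primeFactors hp) (Nat.dvd_of_mem_primeFactors hp)
          omega
        rw [this, prod_empty]
      · intro h6
        refine ⟨hn, fun p hp hpn => ?_⟩
        by_contra h7
        have h8 : p ∈ (lowRad z n).primeFactors := by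
          rw [lowRad_primeFactors, mem_filter]
          exact ⟨Nat.mem_primeFactors.2 ⟨hp, hpn, hn⟩, by omega⟩
        rw [h6] at h8
        simp at h8
    by_cases h6 : lowRad z n = 1
    · rw [if_pos h6, if_pos (h5.2 h6)]
    · rw [if_neg h6, if_neg fun h7 => h6 (h5.1 h7)]
  · rw [rg_apply, if_neg fun h1 => hr (h1.2.mono h)]
    symm
    refine sum_eq_zero fun p hp => ?_
    obtain ⟨h1, h2, h3, -⟩ := pair_ne hp
    rw [mz_apply, rg_apply]
    split_ifs with hb hc
    · exfalso
      apply hr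
      rw [← h1]
      exact Rough.mul (fun q hq hqd => (hb q hq hqd).1) hc.2
    · ring
    · ring
    · ring

/-! ### The powers of `pb` -/

theorem pb_pow_nonneg (z0 z : ℕ) : ∀ (s d : ℕ), 0 ≤ (pb z0 z ^ s) d
  | 0, d => by
    rw [pow_zero, one_apply]
    split_ifs <;> norm_num
  | s + 1, d => by
    rw [pow_succ, mul_apply]
    refine sum_nonneg fun p _ => mul_nonneg (pb_pow_nonneg z0 z s _) ?_
    rw [pb_apply]
    split_ifs <;> norm_num

theorem pb_pow_succ (z0 z s : ℕ) {d : ℕ} (hd : d ≠ 0) : (pb z0 z ^ (s + 1)) d =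
    ∑ p ∈ d.primeFactors.filter (fun p => z0 < p ∧ p ≤ z), (pb z0 z ^ s) (d / p) := by
  classical
  rw [pow_succ, mul_comm, mul_apply, Nat.sum_divisorsAntidiagonal
    (f := fun a b => pb z0 z a * (pb z0 z ^ s) b)]
  have hsub : d.primeFactors.filter (fun p => z0 < p ∧ p ≤ z) ⊆ d.divisors := fun p hp =>
    Nat.mem_divisors.2 ⟨Nat.dvd_of_mem_primeFactors (mem_filter.1 hp).1, hd⟩
  rw [← sum_subset hsub]
  · refine sum_congr rfl fun p hp => ?_
    rw [mem_filter] at hp
    rw [pb_apply, if_pos ⟨Nat.prime_of_mem_primeFactors hp.1, hp.2⟩, one_mul]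
  · intro a ha ha'
    rw [pb_apply, if_neg, zero_mul]
    rintro ⟨h1, h2⟩
    exact ha' (mem_filter.2 ⟨Nat.mem_primeFactors.2 ⟨h1, Nat.dvd_of_mem_divisors ha, hd⟩, h2⟩)

theorem omega_div {d p : ℕ} (hd : d ≠ 0) (hp : p ∈ d.primeFactors) :
    d / p ≠ 0 ∧ Ω d = Ω (d / p) + 1 := by
  have hp1 := Nat.prime_of_mem_primeFactors hp
  have hp2 := Nat.dvd_of_mem_primeFactors hp
  have h0 : d / p ≠ 0 :=
    (Nat.div_pos (Nat.le_of_dvd (Nat.pos_of_ne_zero hd) hp2) hp1.pos).ne'
  refine ⟨h0, ?_⟩
  conv_lhs => rw [← Nat.div_mul_cancel hp2]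
  rw [cardFactors_mul h0 hp1.ne_zero, cardFactors_apply_prime hp1]

theorem pb_pow_eq_zero (z0 z : ℕ) : ∀ (s : ℕ) {d : ℕ}, d ≠ 0 → (Ω d ≠ s ∨ ¬ Btw z0 z d) →
    (pb z0 z ^ s) d = 0
  | 0, d, hd, h => by
    rw [pow_zero, one_apply, if_neg]
    rintro rfl
    rcases h with h | h
    · exact h cardFactors_one
    · exact h fun p hp h' => absurd (Nat.dvd_one.1 h') hp.one_lt.ne'
  | s + 1, d, hd, h => by
    rw [pb_pow_succ z0 z s hd]
    refine sum_eq_zero fun p hp => ?_
    rw [mem_filter] at hp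
    obtain ⟨h0, h1⟩ := omega_div hd hp.1
    refine pb_pow_eq_zero z0 z s h0 ?_
    rcases h with h | h
    · exact Or.inl (by omega)
    · right
      intro hb
      apply h
      intro q hq hqd
      have hp2 := Nat.dvd_of_mem_primeFactors hp.1
      rw [← Nat.div_mul_cancel hp2] at hqd
      rcases hq.dvd_mul.1 hqd with h2 | h2
      · exact hb q hq h2
      · rw [(Nat.prime_dvd_prime_iff_eq hq (Nat.prime_of_mem_primeFactors hp.1)).1 h2]
        exact hp.2

theorem card_primeFactors_le {d : ℕ} : d.primeFactors.card ≤ Ω d := by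
  rw [cardFactors_apply]
  exact List.toFinset_card_le _

theorem pb_pow_le (z0 z : ℕ) : ∀ (s : ℕ) {d : ℕ}, d ≠ 0 → (pb z0 z ^ s) d ≤ (s.factorial : ℝ)
  | 0, d, hd => by
    rw [pow_zero, one_apply]
    split_ifs <;> simp
  | s + 1, d, hd => by
    by_cases hs : Ω d = s + 1
    · rw [pb_pow_succ z0 z s hd]
      have h1 : ∑ p ∈ d.primeFactors.filter (fun p => z0 < p ∧ p ≤ z), (pb z0 z ^ s) (d / p) ≤
          ∑ _p ∈ d.primeFactors.filter (fun p => z0 < p ∧ p ≤ z), (s.factorial : ℝ) :=
        sum_le_sum fun p hp => pb_pow_le z0 z s (omega_div hd (mem_filter.1 hp).1).1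
      refine h1.trans ?_
      rw [sum_const, nsmul_eq_mul, Nat.factorial_succ]
      push_cast
      apply mul_le_mul_of_nonneg_right _ (by positivity)
      have h2 : (d.primeFactors.filter (fun p => z0 < p ∧ p ≤ z)).card ≤ s + 1 :=
        (card_filter_le _ _).trans (card_primeFactors_le.trans hs.le)
      exact_mod_cast h2
    · rw [pb_pow_eq_zero z0 z (s + 1) hd (Or.inl hs)]
      positivity

theorem pb_pow_sqfree (z0 z : ℕ) : ∀ (s : ℕ) {d : ℕ}, Squarefree d → Ω d = s → Btw z0 z d →
    (pb z0 z ^ s) d = (s.factorial : ℝ)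
  | 0, d, hd, hs, hb => by
    have h1 : d = 1 := by
      rcases cardFactors_eq_zero_iff_eq_zero_or_one.1 hs with h | h
      · exact absurd h hd.ne_zero
      · exact h
    rw [h1]
    simp
  | s + 1, d, hd, hs, hb => by
    have hd0 := hd.ne_zero
    rw [pb_pow_succ z0 z s hd0]
    have h0 : d.primeFactors.filter (fun p => z0 < p ∧ p ≤ z) = d.primeFactors := by
      rw [filter_eq_self]
      intro p hp
      exact hb p (Nat.prime_of_mem_primeFactors hp) (Nat.dvd_of_mem_primeFactors hp)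
    rw [h0]
    have h1 : ∀ p ∈ d.primeFactors, (pb z0 z ^ s) (d / p) = (s.factorial : ℝ) := by
      intro p hp
      have hp2 := Nat.dvd_of_mem_primeFactors hp
      have hdd : d / p ∣ d := Nat.div_dvd_of_dvd hp2
      refine pb_pow_sqfree z0 z s (hd.squarefree_of_dvd hdd) ?_ fun q hq hqd => hb q hq (hqd.trans hdd)
      have := (omega_div hd0 hp).2
      omega
    rw [sum_congr rfl h1, sum_const, nsmul_eq_mul, Nat.factorial_succ]
    have h2 : d.primeFactors.card = s + 1 := by
      have h3 := (cardDistinctFactors_eq_cardFactors_iff_squarefree hd0).2 hd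
      rw [cardDistinctFactors_apply] at h3
      rw [← hs, ← h3]
      rfl
    rw [h2]
    push_cast
    ring

/-- The truncated exponential series. -/
noncomputable def ex (z0 z R : ℕ) : ArithmeticFunction ℝ :=
  ∑ s ∈ range (R + 1), ((-1 : ℝ) ^ s / (s.factorial : ℝ)) • pb z0 z ^ s

theorem ex_apply {z0 z R d : ℕ} (hd : d ≠ 0) (hR : Ω d ≤ R) :
    ex z0 z R d = (-1 : ℝ) ^ Ω d / ((Ω d).factorial : ℝ) * (pb z0 z ^ Ω d) d := by
  unfold ex
  rw [af_sum, sum_eq_single (Ω d)]
  · rw [af_smul]
  · intro s _ hs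
    rw [af_smul, pb_pow_eq_zero z0 z s hd (Or.inl (Ne.symm hs)), mul_zero]
  · intro h
    exact absurd (mem_range.2 (by omega)) h

open Classical in
theorem ex_sub_mz {z0 z R d : ℕ} (hd : d ≠ 0) (hR : Ω d ≤ R) :
    |mz z0 z d - ex z0 z R d| ≤ if ¬ Squarefree d ∧ Btw z0 z d then 1 else 0 := by
  rw [ex_apply hd hR, mz_apply]
  have hf : (0 : ℝ) < ((Ω d).factorial : ℝ) := by exact_mod_cast Nat.factorial_pos _
  by_cases hb : Btw z0 z d
  · by_cases hs : Squarefree d
    · rw [if_pos hb, if_neg (by tauto), pb_pow_sqfree z0 z _ hs rfl hb,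
        div_mul_cancel₀ _ hf.ne', moebius_apply_of_squarefree hs]
      push_cast
      rw [sub_self, abs_zero]
    · rw [if_pos hb, if_pos ⟨hs, hb⟩, moebius_eq_zero_of_not_squarefree hs]
      rw [Int.cast_zero, zero_sub, abs_neg, abs_mul, abs_div, abs_pow, abs_neg, abs_one, one_pow,
        abs_of_pos hf, abs_of_nonneg (pb_pow_nonneg _ _ _ _), one_div, inv_mul_le_iff₀ hf, mul_one]
      exact pb_pow_le z0 z _ hd
  · rw [if_neg hb, if_neg (by tauto), pb_pow_eq_zero z0 z _ hd (Or.inr hb)]
    simp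

theorem card_divisors_le : ∀ {n : ℕ}, n ≠ 0 → n.divisors.card ≤ 2 ^ Ω n := by
  intro n
  induction n using Nat.strong_induction_on with
  | _ n ih =>
    intro hn
    rcases eq_or_ne n 1 with rfl | h1
    · simp
    obtain ⟨p, hp, m, rfl⟩ := Nat.exists_prime_and_dvd h1
    have hm : m ≠ 0 := by
      rintro rfl
      exact hn (mul_zero _)
    have h2 := ih m (by nlinarith [hp.two_le, Nat.pos_of_ne_zero hm]) hm
    rw [cardFactors_mul hp.ne_zero hm, cardFactors_apply_prime hp, add_comm, pow_succ]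
    have h3 : (p * m).divisors ⊆ m.divisors ∪ m.divisors.image (fun d => p * d) := by
      intro d hd
      rw [mem_union, mem_image]
      have hd' := Nat.dvd_of_mem_divisors hd
      by_cases hpd : p ∣ d
      · obtain ⟨e, rfl⟩ := hpd
        exact Or.inr ⟨e, Nat.mem_divisors.2 ⟨Nat.dvd_of_mul_dvd_mul_left hp.pos hd', hm⟩, rfl⟩
      · exact Or.inl (Nat.mem_divisors.2
          ⟨((Nat.Prime.coprime_iff_not_dvd hp).2 hpd).symm.dvd_of_dvd_mul_left hd', hm⟩)
    calc (p * m).divisors.card ≤ (m.divisors ∪ m.divisors.image (fun d => p * d)).card :=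
          card_le_card h3
      _ ≤ m.divisors.card + (m.divisors.image (fun d => p * d)).card := card_union_le _ _
      _ ≤ m.divisors.card + m.divisors.card := Nat.add_le_add_left card_image_le _
      _ ≤ 2 ^ Ω m * 2 := by omega

open Classical in
/-- **The two levels of roughness**, with products of primes: for `n ≤ z0 ^ (R + 1)` the sum
`∑ s ∈ range (R + 1), (-1) ^ s / s! * (pb ^ s * rg z0) n` is `rg z n` up to an error at most `2 ^ R`,
which is there only if `p ^ 2 ∣ n` for a prime `p ∈ (z0, z]` (and `n` is `z0`-rough). -/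
theorem expand_error {z0 z n R : ℕ} (h0 : 1 ≤ z0) (h : z0 ≤ z) (hn : n ≤ z0 ^ (R + 1)) :
    |rg z n - ∑ s ∈ range (R + 1), (-1 : ℝ) ^ s / (s.factorial : ℝ) * (pb z0 z ^ s * rg z0) n| ≤
      if Rough z0 n ∧ ∃ p : ℕ, p.Prime ∧ z0 < p ∧ p ≤ z ∧ p ^ 2 ∣ n then 2 ^ R else 0 := by
  rcases eq_or_ne n 0 with rfl | hn0
  · simp only [ArithmeticFunction.map_zero, mul_zero, sum_const_zero, sub_self, abs_zero]
    split_ifs <;> positivity
  have h1 : ∑ s ∈ range (R + 1), (-1 : ℝ) ^ s / (s.factorial : ℝ) * (pb z0 z ^ s * rg z0) n =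
      (ex z0 z R * rg z0) n := by
    unfold ex
    rw [sum_mul, af_sum]
    exact sum_congr rfl fun s _ => by rw [smul_mul_assoc, af_smul]
  have h2 : rg z n - (ex z0 z R * rg z0) n =
      ∑ p ∈ n.divisorsAntidiagonal, (mz z0 z p.1 - ex z0 z R p.1) * rg z0 p.2 := by
    rw [rg_expand h, ← af_sub, ← sub_mul, mul_apply]
    exact sum_congr rfl fun p _ => by rw [af_sub]
  rw [h1, h2]
  have hrg : ∀ m : ℕ, 0 ≤ rg z0 m ∧ rg z0 m ≤ 1 := by
    intro m
    rw [rg_apply]
    split_ifs
    · exact ⟨zero_le_one, le_rfl⟩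
    · exact ⟨le_rfl, zero_le_one⟩
  by_cases hr : Rough z0 n
  · have hOm : Ω n ≤ R := by
      rcases eq_or_ne n 1 with rfl | hn1
      · rw [cardFactors_one]
        exact Nat.zero_le _
      · exact hr.cardFactors_le h0 (by omega) hn
    have hOd : ∀ d : ℕ, d ∣ n → Ω d ≤ R := by
      intro d hd
      obtain ⟨e, rfl⟩ := hd
      have hd0 : d ≠ 0 := fun h => hn0 (by rw [h, zero_mul])
      have he0 : e ≠ 0 := fun h => hn0 (by rw [h, mul_zero])
      rw [cardFactors_mul hd0 he0] at hOm
      omega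
    by_cases hp : ∃ p : ℕ, p.Prime ∧ z0 < p ∧ p ≤ z ∧ p ^ 2 ∣ n
    · rw [if_pos ⟨hr, hp⟩]
      calc |∑ p ∈ n.divisorsAntidiagonal, (mz z0 z p.1 - ex z0 z R p.1) * rg z0 p.2|
          ≤ ∑ p ∈ n.divisorsAntidiagonal, |(mz z0 z p.1 - ex z0 z R p.1) * rg z0 p.2| :=
            abs_sum_le_sum_abs _ _
        _ ≤ ∑ _p ∈ n.divisorsAntidiagonal, (1 : ℝ) := by
            refine sum_le_sum fun p hp => ?_
            obtain ⟨k1, k2, k3, -⟩ := pair_ne hp
            rw [abs_mul, abs_of_nonneg (hrg _).1]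
            have k4 : |mz z0 z p.1 - ex z0 z R p.1| ≤ 1 := by
              refine (ex_sub_mz k2 (hOd _ (Dvd.intro _ k1))).trans ?_
              split_ifs <;> norm_num
            calc |mz z0 z p.1 - ex z0 z R p.1| * rg z0 p.2 ≤ 1 * 1 :=
                  mul_le_mul k4 (hrg _).2 (hrg _).1 zero_le_one
              _ = 1 := one_mul _
        _ = (n.divisors.card : ℝ) := by
            rw [sum_const, nsmul_eq_mul, mul_one, ← Nat.map_div_right_divisors, card_map]
        _ ≤ 2 ^ R := by
            have := (card_divisors_le hn0).trans (Nat.pow_le_pow_right (by norm_num) hOm)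
            exact_mod_cast this
    · rw [if_neg fun h => hp h.2]
      apply le_of_eq
      rw [abs_eq_zero]
      refine sum_eq_zero fun p hp' => ?_
      obtain ⟨k1, k2, k3, -⟩ := pair_ne hp'
      have k4 := ex_sub_mz (z0 := z0) (z := z) k2 (hOd _ (Dvd.intro _ k1))
      rw [if_neg] at k4
      · have k5 : mz z0 z p.1 - ex z0 z R p.1 = 0 := abs_eq_zero.1 (le_antisymm k4 (abs_nonneg _))
        rw [k5, zero_mul]
      · rintro ⟨hs, hb⟩
        apply hp
        obtain ⟨q, hq, hqq⟩ : ∃ q : ℕ, q.Prime ∧ q * q ∣ p.1 := by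
          rw [Nat.squarefree_iff_prime_squarefree] at hs
          push Not at hs
          exact hs
        have hb' := hb q hq ((Dvd.intro _ rfl).trans hqq)
        refine ⟨q, hq, hb'.1, hb'.2, ?_⟩
        rw [pow_two]
        exact hqq.trans (Dvd.intro _ k1)
  · rw [if_neg (by tauto)]
    apply le_of_eq
    rw [abs_eq_zero]
    refine sum_eq_zero fun p hp' => ?_
    obtain ⟨k1, k2, k3, -⟩ := pair_ne hp'
    by_cases hb : Btw z0 z p.1
    · rw [rg_apply, if_neg, mul_zero]
      rintro ⟨-, hc⟩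
      apply hr
      rw [← k1]
      exact Rough.mul (fun q hq hqd => (hb q hq hqd).1) hc
    · have k4 : mz z0 z p.1 = 0 := by rw [mz_apply, if_neg hb]
      have k5 : ex z0 z R p.1 = 0 := by
        unfold ex
        rw [af_sum]
        refine sum_eq_zero fun s _ => ?_
        rw [af_smul, pb_pow_eq_zero z0 z s k2 (Or.inr hb), mul_zero]
      rw [k4, k5, sub_self, zero_mul]

end Pool.Agent.Work.MP_a8fbd7_nt.OX.ID
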