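import Pool.Agent.Work.MP_a8fbd7_nt.OX.ID.RoughSieve
import Pool.Agent.Work.MP_a8fbd7_nt.OX.ID.Linnik

/-!
# MP_a8fbd7_nt, OX/ID: dropping a cell by the upper bound sieve

* `rough_card_real`: a finite set of `z`-rough numbers in `(x, x + h]` has at most
  `(h + 1) / log z + z ^ 2` elements.
* `sum_inv_rough`: the sum of `1 / n` over `z`-rough `n` in `(A, B]`, `z ^ 3 ≤ A ≤ B`, is at most
  `(2 * log (B / A) + 3) / log z`.
* `Dom z k f`: `0 ≤ f n ≤ k ^ Ω n` and `f n = 0` unless `n` is `z`-rough; closed under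
  convolution (`Dom.mul`, the parameters add), products, powers, smaller functions.
* `drop_bound`: if `0 ≤ c ≤ indicator of the z-rough numbers in (A, B]`, `Dom z k g`, `1 ≤ k`,
  `b ≤ z ^ (K + 1)`, then `∑ n ∈ Ioc a b, (c * g) n ≤
  k ^ K * ((b - a) * (2 * log (B / A) + 3) / (log z) ^ 2 + B * (1 / log z + z ^ 2))`.
-/

set_option autoImplicit false

namespace Pool.Agent.Work.MP_a8fbd7_nt.OX.ID

open Finset ArithmeticFunction
open scoped ArithmeticFunction.Omega

theorem zrough_iff (z n : ℕ) : ZRough z n ↔ Rough z n := by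
  unfold ZRough Rough
  constructor
  · intro h p hp hd
    by_contra hc
    exact h p hp (by omega) hd
  · intro h p hp hz hd
    have := h p hp hd
    omega

/-- **Upper bound sieve**, real endpoints. -/
theorem rough_card_real (z : ℕ) (x h : ℝ) (hz : 2 ≤ z) (hx : 0 ≤ x) (hh : 0 ≤ h) (S : Finset ℕ)
    (hS : ∀ n ∈ S, x < n ∧ (n : ℝ) ≤ x + h ∧ Rough z n) :
    (S.card : ℝ) ≤ (h + 1) / Real.log z + (z : ℝ) ^ 2 :=
  rough_count_real z x h hz hx hh S fun n hn =>
    ⟨(hS n hn).1, (hS n hn).2.1, (zrough_iff z n).2 (hS n hn).2.2⟩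

theorem sum_inv_rough_aux (z : ℕ) (hz : 2 ≤ z) (A : ℝ) (hA : 0 < A) (k : ℕ) :
    ∀ (S : Finset ℕ), (∀ n ∈ S, A < n ∧ (n : ℝ) ≤ A * 2 ^ k ∧ Rough z n) →
    ∑ n ∈ S, 1 / (n : ℝ) ≤
      k / Real.log z + (2 - 2 / 2 ^ k) / A * (1 / Real.log z + (z : ℝ) ^ 2) := by
  classical
  have hl : 0 < Real.log z := Real.log_pos (by exact_mod_cast hz)
  induction k with
  | zero =>
    intro S hS
    have : S = ∅ := by
      rw [Finset.eq_empty_iff_forall_notMem]
      intro n hn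
      obtain ⟨h1, h2, -⟩ := hS n hn
      rw [pow_zero, mul_one] at h2
      linarith
    rw [this]
    simp
  | succ k ih =>
    intro S hS
    have hsplit := Finset.sum_filter_add_sum_filter_not S (fun n : ℕ => (n : ℝ) ≤ A * 2 ^ k)
      (fun n => 1 / (n : ℝ))
    have h1 := ih (S.filter fun n : ℕ => (n : ℝ) ≤ A * 2 ^ k) (fun n hn => by
      rw [mem_filter] at hn
      exact ⟨(hS n hn.1).1, hn.2, (hS n hn.1).2.2⟩)
    set S2 := S.filter fun n : ℕ => ¬ (n : ℝ) ≤ A * 2 ^ k with hS2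
    have hP : 0 < A * 2 ^ k := by positivity
    have hcard := rough_card_real z (A * 2 ^ k) (A * 2 ^ k) hz hP.le hP.le S2 (fun n hn => by
      rw [hS2, mem_filter, not_le] at hn
      refine ⟨hn.2, ?_, (hS n hn.1).2.2⟩
      have := (hS n hn.1).2.1
      rw [pow_succ] at this
      linarith)
    have h2 : ∑ n ∈ S2, 1 / (n : ℝ) ≤ (S2.card : ℝ) * (1 / (A * 2 ^ k)) := by
      rw [← nsmul_eq_mul]
      refine sum_le_card_nsmul _ _ _ fun n hn => ?_
      rw [hS2, mem_filter, not_le] at hn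
      exact one_div_le_one_div_of_le hP hn.2.le
    have h3 : (S2.card : ℝ) * (1 / (A * 2 ^ k)) ≤
        ((A * 2 ^ k + 1) / Real.log z + (z : ℝ) ^ 2) * (1 / (A * 2 ^ k)) := by gcongr
    have h4 : ((A * 2 ^ k + 1) / Real.log z + (z : ℝ) ^ 2) * (1 / (A * 2 ^ k)) =
        1 / Real.log z + 1 / 2 ^ k / A * (1 / Real.log z + (z : ℝ) ^ 2) := by
      field_simp
      ring
    have h5 : ((k : ℝ) / Real.log z + (2 - 2 / 2 ^ k) / A * (1 / Real.log z + (z : ℝ) ^ 2)) +
        (1 / Real.log z + 1 / 2 ^ k / A * (1 / Real.log z + (z : ℝ) ^ 2)) =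
        ((k + 1 : ℕ) : ℝ) / Real.log z +
          (2 - 2 / 2 ^ (k + 1)) / A * (1 / Real.log z + (z : ℝ) ^ 2) := by
      push_cast
      rw [pow_succ]
      field_simp
      ring
    rw [← hsplit]
    linarith

/-- **Sum of reciprocals of rough numbers.** -/
theorem sum_inv_rough (z : ℕ) (hz : 2 ≤ z) (A B : ℝ) (hA : (z : ℝ) ^ 3 ≤ A) (hAB : A ≤ B)
    (S : Finset ℕ) (hS : ∀ n ∈ S, A < n ∧ (n : ℝ) ≤ B ∧ Rough z n) :
    ∑ n ∈ S, 1 / (n : ℝ) ≤ (2 * Real.log (B / A) + 3) / Real.log z := by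
  have hz2 : (2 : ℝ) ≤ z := by exact_mod_cast hz
  have hl : 0 < Real.log z := Real.log_pos (by linarith)
  have hz3 : (8 : ℝ) ≤ (z : ℝ) ^ 3 := by
    calc (8 : ℝ) = 2 ^ 3 := by norm_num
      _ ≤ _ := by gcongr
  have hA0 : 0 < A := by linarith
  have hB0 : 0 < B := by linarith
  have hBA : 1 ≤ B / A := (one_le_div hA0).2 hAB
  have hL : 0 ≤ Real.log (B / A) := Real.log_nonneg hBA
  have hlog2 : 0.6931471803 < Real.log 2 := Real.log_two_gt_d9
  have hl2 : 0 < Real.log 2 := by linarith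
  set k : ℕ := ⌈Real.log (B / A) / Real.log 2⌉₊ with hk
  have hk1 : Real.log (B / A) / Real.log 2 ≤ k := Nat.le_ceil _
  have hk2 : (k : ℝ) < Real.log (B / A) / Real.log 2 + 1 := Nat.ceil_lt_add_one (by positivity)
  have hBk : B ≤ A * 2 ^ k := by
    have h1 : Real.log (B / A) ≤ k * Real.log 2 := (div_le_iff₀ hl2).1 hk1
    have h2 : Real.log (B / A) ≤ Real.log (2 ^ k) := by rwa [Real.log_pow]
    have h3 : B / A ≤ 2 ^ k := (Real.log_le_log_iff (by positivity) (by positivity)).1 h2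
    rw [div_le_iff₀ hA0] at h3
    linarith
  have h1 := sum_inv_rough_aux z hz A hA0 k S (fun n hn =>
    ⟨(hS n hn).1, (hS n hn).2.1.trans hBk, (hS n hn).2.2⟩)
  refine h1.trans ?_
  have h2 : (2 - 2 / 2 ^ k) / A * (1 / Real.log z + (z : ℝ) ^ 2) ≤
      2 / A * (1 / Real.log z + (z : ℝ) ^ 2) := by
    have : (0 : ℝ) ≤ 2 / 2 ^ k := by positivity
    gcongr
    linarith
  have h3 : 2 / A * (1 / Real.log z + (z : ℝ) ^ 2) ≤ (1 / 4 + 1) / Real.log z := by
    have e1 : 2 / A * (1 / Real.log z) ≤ 1 / 4 / Real.log z := by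
      have : 2 / A ≤ 1 / 4 := by
        rw [div_le_iff₀ hA0]
        linarith
      calc 2 / A * (1 / Real.log z) ≤ 1 / 4 * (1 / Real.log z) := by gcongr
        _ = _ := by ring
    have e2 : 2 / A * (z : ℝ) ^ 2 ≤ 1 / Real.log z := by
      have e3 : 2 / A * (z : ℝ) ^ 2 ≤ 2 / (z : ℝ) := by
        calc 2 / A * (z : ℝ) ^ 2 ≤ 2 / (z : ℝ) ^ 3 * (z : ℝ) ^ 2 := by gcongr
          _ = 2 / (z : ℝ) := by
            field_simp
      have e4 : 2 / (z : ℝ) ≤ 1 / Real.log z := by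
        rw [div_le_div_iff₀ (by linarith) hl]
        have e5 : Real.log z - Real.log 2 ≤ z / 2 - 1 := by
          rw [← Real.log_div (by linarith) (by norm_num)]
          exact Real.log_le_sub_one_of_pos (by positivity)
        have e6 : Real.log 2 < 0.6931471808 := Real.log_two_lt_d9
        linarith
      linarith
    calc 2 / A * (1 / Real.log z + (z : ℝ) ^ 2) = 2 / A * (1 / Real.log z) + 2 / A * (z : ℝ) ^ 2 := by
          ring
      _ ≤ 1 / 4 / Real.log z + 1 / Real.log z := add_le_add e1 e2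
      _ = _ := by ring
  have h4 : (k : ℝ) ≤ 3 / 2 * Real.log (B / A) + 1 := by
    have : Real.log (B / A) / Real.log 2 ≤ 3 / 2 * Real.log (B / A) := by
      rw [div_le_iff₀ hl2]
      nlinarith
    linarith
  have h5 : (k : ℝ) / Real.log z ≤ (3 / 2 * Real.log (B / A) + 1) / Real.log z := by gcongr
  calc (k : ℝ) / Real.log z + (2 - 2 / 2 ^ k) / A * (1 / Real.log z + (z : ℝ) ^ 2)
      ≤ (3 / 2 * Real.log (B / A) + 1) / Real.log z + (1 / 4 + 1) / Real.log z := by linarith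
    _ = (3 / 2 * Real.log (B / A) + 9 / 4) / Real.log z := by ring
    _ ≤ _ := by
      gcongr
      all_goals linarith

/-! ### Dominated functions -/

/-- `0 ≤ f`, `f n ≤ k ^ Ω n` if `n` is `z`-rough and `f n = 0` otherwise -/
def Dom (z k : ℕ) (f : ArithmeticFunction ℝ) : Prop :=
  ∀ n : ℕ, 0 ≤ f n ∧ (n ≠ 0 → Rough z n → f n ≤ (k : ℝ) ^ (Ω n)) ∧ (¬ Rough z n → f n = 0)

theorem sum_divisors_pow (j k : ℕ) : ∀ n : ℕ, n ≠ 0 →
    ∑ e ∈ n.divisors, (j : ℝ) ^ (Ω (n / e)) * (k : ℝ) ^ (Ω e) ≤ ((j : ℝ) + k) ^ (Ω n) := by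
  classical
  intro n
  induction n using Nat.strong_induction_on with
  | _ n ih =>
    intro hn
    by_cases h1 : n = 1
    · subst h1
      simp
    obtain ⟨p, hp, m, rfl⟩ := Nat.exists_prime_and_dvd h1
    have hm : m ≠ 0 := by
      rintro rfl
      simp at hn
    have hlt : m < p * m := by nlinarith [hp.two_le, Nat.pos_of_ne_zero hm]
    have ihm := ih m hlt hm
    have hsub : (p * m).divisors ⊆ m.divisors ∪ m.divisors.image (fun e => p * e) := by
      intro e he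
      rw [Nat.mem_divisors] at he
      rw [mem_union, mem_image]
      by_cases hpe : p ∣ e
      · right
        obtain ⟨e', rfl⟩ := hpe
        exact ⟨e', Nat.mem_divisors.2 ⟨Nat.dvd_of_mul_dvd_mul_left hp.pos he.1, hm⟩, rfl⟩
      · left
        rw [Nat.mem_divisors]
        exact ⟨Nat.Coprime.dvd_of_dvd_mul_left ((Nat.Prime.coprime_iff_not_dvd hp).2 hpe).symm he.1,
          hm⟩
    have hOm : Ω (p * m) = Ω m + 1 := by
      rw [cardFactors_mul hp.ne_zero hm, cardFactors_apply_prime hp, add_comm]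
    calc ∑ e ∈ (p * m).divisors, (j : ℝ) ^ (Ω (p * m / e)) * (k : ℝ) ^ (Ω e)
        ≤ ∑ e ∈ m.divisors ∪ m.divisors.image (fun e => p * e),
            (j : ℝ) ^ (Ω (p * m / e)) * (k : ℝ) ^ (Ω e) :=
          sum_le_sum_of_subset_of_nonneg hsub fun _ _ _ => by positivity
      _ ≤ ∑ e ∈ m.divisors, (j : ℝ) ^ (Ω (p * m / e)) * (k : ℝ) ^ (Ω e) +
          ∑ e ∈ m.divisors.image (fun e => p * e), (j : ℝ) ^ (Ω (p * m / e)) * (k : ℝ) ^ (Ω e) := by
          rw [← sum_union_inter]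
          have : 0 ≤ ∑ e ∈ m.divisors ∩ m.divisors.image (fun e => p * e),
            (j : ℝ) ^ (Ω (p * m / e)) * (k : ℝ) ^ (Ω e) := sum_nonneg fun _ _ => by positivity
          linarith
      _ = (j : ℝ) * ∑ e ∈ m.divisors, (j : ℝ) ^ (Ω (m / e)) * (k : ℝ) ^ (Ω e) +
          (k : ℝ) * ∑ e ∈ m.divisors, (j : ℝ) ^ (Ω (m / e)) * (k : ℝ) ^ (Ω e) := by
          congr 1
          · rw [mul_sum]
            refine sum_congr rfl fun e he => ?_
            obtain ⟨hd, -⟩ := Nat.mem_divisors.1 he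
            have he0 : 0 < e := Nat.pos_of_dvd_of_pos hd (Nat.pos_of_ne_zero hm)
            have h2 : m / e ≠ 0 := (Nat.div_pos (Nat.le_of_dvd (Nat.pos_of_ne_zero hm) hd) he0).ne'
            rw [Nat.mul_div_assoc p hd, cardFactors_mul hp.ne_zero h2, cardFactors_apply_prime hp,
              pow_add, pow_one]
            ring
          · rw [sum_image (fun x _ y _ h => Nat.eq_of_mul_eq_mul_left hp.pos h), mul_sum]
            refine sum_congr rfl fun e he => ?_
            obtain ⟨hd, -⟩ := Nat.mem_divisors.1 he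
            have he0 : e ≠ 0 := (Nat.pos_of_dvd_of_pos hd (Nat.pos_of_ne_zero hm)).ne'
            rw [Nat.mul_div_mul_left _ _ hp.pos, cardFactors_mul hp.ne_zero he0,
              cardFactors_apply_prime hp, pow_add, pow_one]
            ring
      _ = ((j : ℝ) + k) * ∑ e ∈ m.divisors, (j : ℝ) ^ (Ω (m / e)) * (k : ℝ) ^ (Ω e) := by ring
      _ ≤ ((j : ℝ) + k) * ((j : ℝ) + k) ^ (Ω m) := by gcongr
      _ = ((j : ℝ) + k) ^ (Ω (p * m)) := by rw [hOm, pow_succ]; ring

theorem Dom.mul {z j k : ℕ} {f g : ArithmeticFunction ℝ} (hf : Dom z j f) (hg : Dom z k g) :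
    Dom z (j + k) (f * g) := by
  intro n
  refine ⟨?_, ?_, ?_⟩
  · rw [mul_apply]
    exact sum_nonneg fun p _ => mul_nonneg (hf p.1).1 (hg p.2).1
  · intro hn hR
    rw [mul_apply]
    calc ∑ p ∈ n.divisorsAntidiagonal, f p.1 * g p.2
        ≤ ∑ p ∈ n.divisorsAntidiagonal, (j : ℝ) ^ (Ω p.1) * (k : ℝ) ^ (Ω p.2) := by
          refine sum_le_sum fun p hp => ?_
          obtain ⟨h1, h2⟩ := Nat.mem_divisorsAntidiagonal.1 hp
          have ha : p.1 ≠ 0 := by
            intro h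
            rw [h, zero_mul] at h1
            exact h2 h1.symm
          have hb : p.2 ≠ 0 := by
            intro h
            rw [h, mul_zero] at h1
            exact h2 h1.symm
          have e1 := (hf p.1).2.1 ha (hR.of_dvd (Dvd.intro _ h1))
          have e2 := (hg p.2).2.1 hb (hR.of_dvd (Dvd.intro_left _ h1))
          have e3 := (hg p.2).1
          gcongr
      _ = ∑ e ∈ n.divisors, (j : ℝ) ^ (Ω (n / e)) * (k : ℝ) ^ (Ω e) :=
          Nat.sum_divisorsAntidiagonal' (fun a b => (j : ℝ) ^ (Ω a) * (k : ℝ) ^ (Ω b))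
      _ ≤ ((j : ℝ) + k) ^ (Ω n) := sum_divisors_pow j k n hn
      _ = _ := by push_cast; ring
  · intro hR
    rw [mul_apply]
    refine sum_eq_zero fun p hp => ?_
    obtain ⟨h1, h2⟩ := Nat.mem_divisorsAntidiagonal.1 hp
    by_cases ha : Rough z p.1
    · by_cases hb : Rough z p.2
      · exact absurd (h1 ▸ ha.mul hb) hR
      · rw [(hg p.2).2.2 hb, mul_zero]
    · rw [(hf p.1).2.2 ha, zero_mul]

theorem Dom.one (z : ℕ) : Dom z 0 1 := by
  intro n
  rw [one_apply]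
  refine ⟨?_, ?_, ?_⟩
  · split_ifs <;> norm_num
  · intro hn _
    split_ifs with h
    · subst h
      simp
    · positivity
  · intro hR
    rw [if_neg]
    rintro rfl
    exact hR fun p hp hd => absurd (Nat.dvd_one.1 hd) hp.ne_one

theorem Dom.mono {z k l : ℕ} {f g : ArithmeticFunction ℝ} (hf : Dom z k f) (hkl : k ≤ l)
    (h : ∀ n, 0 ≤ g n ∧ g n ≤ f n) : Dom z l g := by
  intro n
  refine ⟨(h n).1, fun hn hR => ?_, fun hR => ?_⟩
  · refine (h n).2.trans (((hf n).2.1 hn hR).trans ?_)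
    have : (k : ℝ) ≤ l := by exact_mod_cast hkl
    gcongr
  · have h1 := (hf n).2.2 hR
    have h2 := h n
    linarith

theorem Dom.prod {ι : Type*} {z : ℕ} (s : Finset ι) (f : ι → ArithmeticFunction ℝ)
    (hf : ∀ i ∈ s, Dom z 1 (f i)) : Dom z s.card (∏ i ∈ s, f i) := by
  classical
  induction s using Finset.induction_on with
  | empty =>
    rw [prod_empty, card_empty]
    exact Dom.one z
  | insert a s ha ih =>
    rw [prod_insert ha, card_insert_of_notMem ha, add_comm]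
    exact (hf a (mem_insert_self a s)).mul (ih fun i hi => hf i (mem_insert_of_mem hi))

theorem Dom.pow {z k : ℕ} {f : ArithmeticFunction ℝ} (hf : Dom z 1 f) : Dom z k (f ^ k) := by
  have := Dom.prod (range k) (fun _ => f) (fun _ _ => hf)
  rwa [prod_const, card_range] at this

theorem dom_of_indicator {z : ℕ} {f : ArithmeticFunction ℝ}
    (hf : ∀ n, 0 ≤ f n ∧ f n ≤ 1 ∧ (¬ Rough z n → f n = 0)) : Dom z 1 f := by
  intro n
  refine ⟨(hf n).1, fun _ _ => ?_, (hf n).2.2⟩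
  rw [Nat.cast_one, one_pow]
  exact (hf n).2.1

theorem dom_roughOne (z : ℕ) : Dom z 1 (roughOne z) := by
  refine dom_of_indicator fun n => ?_
  rw [roughOne_apply]
  refine ⟨?_, ?_, ?_⟩
  · split_ifs <;> norm_num
  · split_ifs <;> norm_num
  · intro h
    rw [if_neg fun h' => h h'.2]

theorem Dom.le_pow {z k K n : ℕ} {f : ArithmeticFunction ℝ} (hf : Dom z k f) (hk : 1 ≤ k)
    (hz : 1 ≤ z) (hn : n ≤ z ^ (K + 1)) : f n ≤ (k : ℝ) ^ K := by
  have hk1 : (1 : ℝ) ≤ k := by exact_mod_cast hk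
  have h1 : (1 : ℝ) ≤ (k : ℝ) ^ K := one_le_pow₀ hk1
  by_cases hR : Rough z n
  · by_cases h0 : n = 0
    · rw [h0, ArithmeticFunction.map_zero]
      linarith
    refine ((hf n).2.1 h0 hR).trans ?_
    by_cases h1' : n = 1
    · subst h1'
      simpa using h1
    · exact pow_le_pow_right₀ hk1 (hR.cardFactors_le hz (by omega) hn)
  · rw [(hf n).2.2 hR]
    linarith

/-! ### Dropping a cell -/

open Classical in
/-- the sum of a convolution over an interval as a sum over pairs -/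
theorem sum_mul_Ioc (a b : ℕ) (c g : ArithmeticFunction ℝ) :
    ∑ n ∈ Ioc a b, (c * g) n =
      ∑ n₁ ∈ Icc 1 b, ∑ m ∈ (Icc 1 b).filter (fun m => a < n₁ * m ∧ n₁ * m ≤ b), c n₁ * g m := by
  set s : Finset (ℕ × ℕ) := ((Icc 1 b) ×ˢ (Icc 1 b)).filter
    (fun p => a < p.1 * p.2 ∧ p.1 * p.2 ≤ b) with hs
  have h1 : ∀ p ∈ s, p.1 * p.2 ∈ Ioc a b := by
    intro p hp
    rw [hs, mem_filter] at hp
    exact mem_Ioc.2 hp.2
  have h2 := Finset.sum_fiberwise_of_maps_to (t := Ioc a b) (g := fun p : ℕ × ℕ => p.1 * p.2) h1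
    (fun p => c p.1 * g p.2)
  have h3 : ∑ n ∈ Ioc a b, (c * g) n = ∑ p ∈ s, c p.1 * g p.2 := by
    rw [← h2]
    refine sum_congr rfl fun n hn => ?_
    rw [mul_apply]
    congr 1
    ext p
    rw [mem_Ioc] at hn
    rw [Nat.mem_divisorsAntidiagonal, hs, mem_filter, mem_filter, mem_product, mem_Icc, mem_Icc]
    constructor
    · rintro ⟨h, h0⟩
      have ha : 1 ≤ p.1 := by
        rcases Nat.eq_zero_or_pos p.1 with h' | h'
        · rw [h', zero_mul] at h
          omega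
        · exact h'
      have hb : 1 ≤ p.2 := by
        rcases Nat.eq_zero_or_pos p.2 with h' | h'
        · rw [h', mul_zero] at h
          omega
        · exact h'
      have ha' : p.1 ≤ n := h ▸ Nat.le_mul_of_pos_right _ hb
      have hb' : p.2 ≤ n := h ▸ Nat.le_mul_of_pos_left _ ha
      exact ⟨⟨⟨⟨ha, by omega⟩, ⟨hb, by omega⟩⟩, by omega, by omega⟩, h⟩
    · rintro ⟨-, h⟩
      exact ⟨h, by omega⟩
  rw [h3, hs, sum_filter, sum_product]
  refine sum_congr rfl fun n₁ _ => ?_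
  rw [sum_filter]

open Classical in
/-- **Dropping a cell.** -/
theorem drop_bound_G (z a b : ℕ) (A B G : ℝ) (hz : 2 ≤ z) (hA : (z : ℝ) ^ 3 ≤ A) (hAB : A ≤ B)
    (hab : a ≤ b) (hG : 0 ≤ G) (c g : ArithmeticFunction ℝ)
    (hc : ∀ n, 0 ≤ c n ∧ c n ≤ 1 ∧ (¬ (A < n ∧ (n : ℝ) ≤ B ∧ Rough z n) → c n = 0))
    (hg : ∀ n, 0 ≤ g n ∧ (n ≤ b → g n ≤ G) ∧ (¬ Rough z n → g n = 0)) :
    ∑ n ∈ Ioc a b, (c * g) n ≤
      G * (((b : ℝ) - a) * (2 * Real.log (B / A) + 3) / Real.log z ^ 2 +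
        B * (1 / Real.log z + (z : ℝ) ^ 2)) := by
  have hz2 : (2 : ℝ) ≤ z := by exact_mod_cast hz
  have hl : 0 < Real.log z := Real.log_pos (by linarith)
  have hA0 : 0 < A := by
    have : 0 < (z : ℝ) ^ 3 := by positivity
    linarith
  have hB0 : 0 < B := by linarith
  have hab' : (0 : ℝ) ≤ (b : ℝ) - a := by
    have : (a : ℝ) ≤ b := by exact_mod_cast hab
    linarith
  set S : Finset ℕ := (Icc 1 b).filter (fun n : ℕ => A < n ∧ (n : ℝ) ≤ B ∧ Rough z n) with hS
  have hin : ∀ n₁ ∈ Icc 1 b,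
      ∑ m ∈ (Icc 1 b).filter (fun m => a < n₁ * m ∧ n₁ * m ≤ b), c n₁ * g m ≤
      if A < n₁ ∧ (n₁ : ℝ) ≤ B ∧ Rough z n₁ then
        G * (((b : ℝ) - a) / Real.log z * (1 / n₁) + (1 / Real.log z + (z : ℝ) ^ 2)) else 0 := by
    intro n₁ hn₁
    rw [mem_Icc] at hn₁
    have hn0 : (0 : ℝ) < n₁ := by exact_mod_cast hn₁.1
    split_ifs with hcond
    · have h1 : ∑ m ∈ (Icc 1 b).filter (fun m => a < n₁ * m ∧ n₁ * m ≤ b), c n₁ * g m ≤
          ∑ m ∈ (Icc 1 b).filter (fun m => (a < n₁ * m ∧ n₁ * m ≤ b) ∧ Rough z m), G := by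
        rw [sum_filter, sum_filter]
        refine sum_le_sum fun m hm => ?_
        rw [mem_Icc] at hm
        by_cases h1 : a < n₁ * m ∧ n₁ * m ≤ b
        · rw [if_pos h1]
          by_cases h2 : Rough z m
          · rw [if_pos ⟨h1, h2⟩]
            calc c n₁ * g m ≤ 1 * G := by
                  have e1 := (hc n₁).2.1
                  have e2 := (hg m).2.1 hm.2
                  have e3 := (hg m).1
                  gcongr
              _ = G := one_mul G
          · rw [if_neg fun h => h2 h.2, (hg m).2.2 h2, mul_zero]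
        · rw [if_neg h1, if_neg fun h => h1 h.1]
      have h2 := rough_card_real z ((a : ℝ) / n₁) (((b : ℝ) - a) / n₁) hz (by positivity)
        (by positivity) ((Icc 1 b).filter (fun m => (a < n₁ * m ∧ n₁ * m ≤ b) ∧ Rough z m))
        (fun m hm => by
          rw [mem_filter] at hm
          obtain ⟨-, ⟨e1, e2⟩, e3⟩ := hm
          have e1' : (a : ℝ) < n₁ * m := by exact_mod_cast e1
          have e2' : (n₁ : ℝ) * m ≤ b := by exact_mod_cast e2
          refine ⟨?_, ?_, e3⟩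
          · rw [div_lt_iff₀ hn0]
            linarith
          · rw [← add_div, le_div_iff₀ hn0]
            linarith)
      refine h1.trans ?_
      rw [sum_const, nsmul_eq_mul]
      calc (((Icc 1 b).filter (fun m => (a < n₁ * m ∧ n₁ * m ≤ b) ∧ Rough z m)).card : ℝ) * G
          ≤ ((((b : ℝ) - a) / n₁ + 1) / Real.log z + (z : ℝ) ^ 2) * G := by gcongr
        _ = _ := by ring
    · have h0 := (hc n₁).2.2 hcond
      rw [h0]
      simp
  rw [sum_mul_Ioc]
  refine (sum_le_sum hin).trans ?_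
  rw [← sum_filter, ← mul_sum, sum_add_distrib, ← mul_sum, sum_const, nsmul_eq_mul]
  have hsum := sum_inv_rough z hz A B hA hAB S (fun n hn => by
    rw [hS, mem_filter] at hn
    exact hn.2)
  have hcard : (S.card : ℝ) ≤ B := by
    have h1 : S ⊆ Icc 1 ⌊B⌋₊ := by
      intro n hn
      rw [hS, mem_filter, mem_Icc] at hn
      exact mem_Icc.2 ⟨hn.1.1, Nat.le_floor hn.2.2.1⟩
    have h2 : (S.card : ℝ) ≤ ((Icc 1 ⌊B⌋₊).card : ℝ) := by exact_mod_cast card_le_card h1
    rw [Nat.card_Icc, Nat.add_sub_cancel] at h2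
    exact h2.trans (Nat.floor_le hB0.le)
  calc G * (((b : ℝ) - a) / Real.log z * ∑ n ∈ S, 1 / (n : ℝ) +
        (S.card : ℝ) * (1 / Real.log z + (z : ℝ) ^ 2))
      ≤ G * (((b : ℝ) - a) / Real.log z * ((2 * Real.log (B / A) + 3) / Real.log z) +
        B * (1 / Real.log z + (z : ℝ) ^ 2)) := by gcongr
    _ = _ := by
      field_simp

/-- **Dropping a cell**, with a product of rough functions as second factor. -/
theorem drop_bound (z a b k K : ℕ) (A B : ℝ) (hz : 2 ≤ z) (hA : (z : ℝ) ^ 3 ≤ A) (hAB : A ≤ B)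
    (hab : a ≤ b) (hk : 1 ≤ k) (hb : b ≤ z ^ (K + 1)) (c g : ArithmeticFunction ℝ)
    (hc : ∀ n, 0 ≤ c n ∧ c n ≤ 1 ∧ (¬ (A < n ∧ (n : ℝ) ≤ B ∧ Rough z n) → c n = 0))
    (hg : Dom z k g) :
    ∑ n ∈ Ioc a b, (c * g) n ≤
      (k : ℝ) ^ K * (((b : ℝ) - a) * (2 * Real.log (B / A) + 3) / Real.log z ^ 2 +
        B * (1 / Real.log z + (z : ℝ) ^ 2)) :=
  drop_bound_G z a b A B _ hz hA hAB hab (by positivity) c g hc fun n =>
    ⟨(hg n).1, fun hn => hg.le_pow hk (by omega) (hn.trans hb), (hg n).2.2⟩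

end Pool.Agent.Work.MP_a8fbd7_nt.OX.ID
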