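import Pool.Agent.Work.MP_a8fbd7_nt.OX.ID.Expand
import Pool.Agent.Work.MP_a8fbd7_nt.OX.ID.Drop

/-!
# Powers of the indicator of rough numbers

`lin3` : for `2 ≤ n ≤ z ^ 5`
`3 R n - 3/2 (R^2) n + 1/3 (R^3) n - 1/4 (roughOne z ^ 4) n = Λ n / log n` if `n` is `z`-rough, `0`
otherwise, where `R = rg z`.

`rg_pow_expand` : `(rg z ^ k) n = ∑ s, (-k) ^ s / s! * (pb z0 z ^ s * rg z0 ^ k) n` if `p ^ 2 ∤ n` for all
primes `p ∈ (z0, z]`, and the difference is bounded in general.
-/

set_option autoImplicit false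

namespace Pool.Agent.Work.MP_a8fbd7_nt.OX.ID

open Finset ArithmeticFunction
open scoped ArithmeticFunction.zeta ArithmeticFunction.Moebius ArithmeticFunction.Omega

open Classical in
/-- Linnik's identity for numbers with at most four prime factors, all larger than `z`. -/
theorem lin3 {z n : ℕ} (hz : 1 ≤ z) (h2 : 2 ≤ n) (hn : n ≤ z ^ 5) :
    3 * rg z n - 3 / 2 * (rg z ^ 2) n + 1 / 3 * (rg z ^ 3) n - 1 / 4 * (roughOne z ^ 4) n =
      if Rough z n then Λ n / Real.log n else 0 := by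
  rw [← rough_linnik (K := 4) hz hn]
  have h1 : (1 : ArithmeticFunction ℝ) n = 0 := by
    rw [one_apply, if_neg (by omega)]
  have e1 : roughOne z n = rg z n := by
    rw [rg_eq, ArithmeticFunction.add_apply, h1, zero_add]
  have e2 : (roughOne z ^ 2) n = (rg z ^ 2) n - 2 * rg z n := by
    have : roughOne z ^ 2 = rg z ^ 2 - (2 : ℝ) • rg z + 1 := by
      rw [rg_eq]
      have : (2 : ℝ) • ((1 : ArithmeticFunction ℝ) + roughOne z) =
          ((1 : ArithmeticFunction ℝ) + roughOne z) + ((1 : ArithmeticFunction ℝ) + roughOne z) :=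
        two_smul _ _
      rw [this]
      ring
    rw [this, ArithmeticFunction.add_apply, af_sub, af_smul, h1, add_zero]
  have e3 : (roughOne z ^ 3) n = (rg z ^ 3) n - 3 * (rg z ^ 2) n + 3 * rg z n := by
    have : roughOne z ^ 3 = rg z ^ 3 - (3 : ℝ) • rg z ^ 2 + (3 : ℝ) • rg z - 1 := by
      have h3 : ∀ f : ArithmeticFunction ℝ, (3 : ℝ) • f = f + f + f := by
        intro f
        rw [show (3 : ℝ) = 1 + 1 + 1 by norm_num, add_smul, add_smul, one_smul]
      rw [rg_eq, h3, h3]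
      ring
    rw [this, af_sub, ArithmeticFunction.add_apply, af_sub, af_smul, af_smul, h1, sub_zero]
  rw [sum_range_succ, sum_range_succ, sum_range_succ, sum_range_one]
  simp only [zero_add, pow_one, Nat.cast_zero, Nat.cast_one, Nat.cast_ofNat]
  rw [show (1 : ℕ) + 1 = 2 by norm_num, show (2 : ℕ) + 1 = 3 by norm_num, show (3 : ℕ) + 1 = 4 by norm_num,
    e1, e2, e3]
  norm_num
  ring

/-! ### The Möbius function and its powers -/

theorem mz_pow_btw (z0 z : ℕ) : ∀ (k : ℕ) {d : ℕ}, ¬ Btw z0 z d → (mz z0 z ^ k) d = 0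
  | 0, d, h => by
    rw [pow_zero, one_apply, if_neg]
    rintro rfl
    exact h fun p hp h' => absurd (Nat.dvd_one.1 h') hp.one_lt.ne'
  | k + 1, d, h => by
    rw [pow_succ, mul_apply]
    refine sum_eq_zero fun p hp => ?_
    obtain ⟨h1, -⟩ := Nat.mem_divisorsAntidiagonal.1 hp
    by_cases ha : Btw z0 z p.1
    · by_cases hb : Btw z0 z p.2
      · exfalso
        apply h
        intro q hq hqd
        rw [← h1] at hqd
        exact (hq.dvd_mul.1 hqd).elim (ha q hq) (hb q hq)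
      · rw [mz_apply z0 z p.2, if_neg hb, mul_zero]
    · rw [mz_pow_btw z0 z k ha, zero_mul]

theorem sum_divisors_pow_omega {d : ℕ} (hd : Squarefree d) (k : ℝ) :
    ∑ e ∈ d.divisors, k ^ Ω e = (1 + k) ^ Ω d := by
  classical
  have h1 := Nat.sum_divisors_filter_squarefree (f := fun e => k ^ Ω e) hd.ne_zero
  have h2 : d.divisors.filter Squarefree = d.divisors := by
    rw [filter_eq_self]
    intro e he
    exact hd.squarefree_of_dvd (Nat.dvd_of_mem_divisors he)
  rw [h2] at h1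
  rw [h1]
  have h3 : ∀ S ∈ (UniqueFactorizationMonoid.normalizedFactors d).toFinset.powerset,
      k ^ Ω (S.val.prod) = ∏ _p ∈ S, k := by
    intro S hS
    rw [prod_const]
    congr 1
    rw [mem_powerset] at hS
    have h4 : ∀ p ∈ S, p.Prime := by
      intro p hp
      have := hS hp
      rw [Multiset.mem_toFinset] at this
      exact (UniqueFactorizationMonoid.prime_of_normalized_factor p this).nat_prime
    rw [cardFactors_multiset_prod]
    · have : Multiset.map (⇑Ω) S.val = Multiset.map (fun _ => 1) S.val :=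
        Multiset.map_congr rfl fun p hp => cardFactors_apply_prime (h4 p hp)
      rw [this]
      simp
    · have : S.val.prod = ∏ p ∈ S, p := by
        rw [Finset.prod_eq_multiset_prod, Multiset.map_id']
      rw [this]
      exact prod_ne_zero_iff.2 fun p hp => (h4 p hp).ne_zero
  rw [sum_congr rfl h3, ← Finset.prod_one_add]
  rw [prod_const]
  congr 1
  have h5 : (UniqueFactorizationMonoid.normalizedFactors d).toFinset.card = d.primeFactors.card := by
    rw [Nat.primeFactors, Nat.factors_eq]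
    rfl
  rw [h5]
  have h6 := (cardDistinctFactors_eq_cardFactors_iff_squarefree hd.ne_zero).2 hd
  rw [cardDistinctFactors_apply] at h6
  rw [← h6]
  rfl

theorem mz_pow_sqfree (z0 z : ℕ) : ∀ (k : ℕ) {d : ℕ}, Squarefree d → Btw z0 z d →
    (mz z0 z ^ k) d = (-(k : ℝ)) ^ Ω d
  | 0, d, hd, hb => by
    rw [pow_zero, one_apply]
    by_cases h : d = 1
    · rw [if_pos h, h, cardFactors_one, pow_zero]
    · rw [if_neg h, Nat.cast_zero, neg_zero, zero_pow]
      intro h0
      rcases cardFactors_eq_zero_iff_eq_zero_or_one.1 h0 with h' | h'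
      · exact hd.ne_zero h'
      · exact h h'
  | k + 1, d, hd, hb => by
    rw [pow_succ, mul_apply, Nat.sum_divisorsAntidiagonal
      (f := fun a b => (mz z0 z ^ k) a * mz z0 z b)]
    have h1 : ∀ e ∈ d.divisors, (mz z0 z ^ k) e * mz z0 z (d / e) =
        (-1) ^ Ω d * (k : ℝ) ^ Ω e := by
      intro e he
      have he' := Nat.dvd_of_mem_divisors he
      have hde : d / e ∣ d := Nat.div_dvd_of_dvd he'
      have he0 : e ≠ 0 := (Nat.pos_of_mem_divisors he).ne'
      have hde0 : d / e ≠ 0 := (hd.squarefree_of_dvd hde).ne_zero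
      have hbq : Btw z0 z (d / e) := fun q hq hqe => hb q hq (hqe.trans hde)
      rw [mz_pow_sqfree z0 z k (hd.squarefree_of_dvd he') fun q hq hqe => hb q hq (hqe.trans he'),
        mz_apply, if_pos hbq, moebius_apply_of_squarefree (hd.squarefree_of_dvd hde)]
      have hO : Ω d = Ω e + Ω (d / e) := by
        conv_lhs => rw [← Nat.mul_div_cancel' he']
        rw [cardFactors_mul he0 hde0]
      rw [hO, pow_add, neg_pow (k : ℝ)]
      push_cast
      ring
    rw [sum_congr rfl h1, ← mul_sum, sum_divisors_pow_omega hd, ← mul_pow]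
    push_cast
    ring

/-- The truncated series `exp (-k P)`. -/
noncomputable def exk (z0 z R k : ℕ) : ArithmeticFunction ℝ :=
  ∑ s ∈ range (R + 1), ((-(k : ℝ)) ^ s / (s.factorial : ℝ)) • pb z0 z ^ s

theorem exk_apply {z0 z R k d : ℕ} (hd : d ≠ 0) (hR : Ω d ≤ R) :
    exk z0 z R k d = (-(k : ℝ)) ^ Ω d / ((Ω d).factorial : ℝ) * (pb z0 z ^ Ω d) d := by
  unfold exk
  rw [af_sum, sum_eq_single (Ω d)]
  · rw [af_smul]
  · intro s _ hs
    rw [af_smul, pb_pow_eq_zero z0 z s hd (Or.inl (Ne.symm hs)), mul_zero]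
  · intro h
    exact absurd (mem_range.2 (by omega)) h

theorem mz_pow_eq_exk {z0 z R k d : ℕ} (hd : d ≠ 0) (hR : Ω d ≤ R) (hs : Btw z0 z d → Squarefree d) :
    (mz z0 z ^ k) d = exk z0 z R k d := by
  rw [exk_apply hd hR]
  by_cases hb : Btw z0 z d
  · have hf : ((Ω d).factorial : ℝ) ≠ 0 := by exact_mod_cast (Nat.factorial_pos _).ne'
    rw [mz_pow_sqfree z0 z k (hs hb) hb, pb_pow_sqfree z0 z _ (hs hb) rfl hb,
      div_mul_cancel₀ _ hf]
  · rw [mz_pow_btw z0 z k hb, pb_pow_eq_zero z0 z _ hd (Or.inr hb), mul_zero]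

theorem dom_rg (z : ℕ) : Dom z 1 (rg z) := by
  classical
  refine dom_of_indicator fun n => ?_
  rw [rg_apply]
  refine ⟨?_, ?_, ?_⟩
  · split_ifs <;> norm_num
  · split_ifs <;> norm_num
  · intro h
    rw [if_neg fun h' => h h'.2]

theorem dom_pb (z0 z : ℕ) : Dom z0 1 (pb z0 z) := by
  classical
  refine dom_of_indicator fun n => ?_
  rw [pb_apply]
  refine ⟨?_, ?_, ?_⟩
  · split_ifs <;> norm_num
  · split_ifs <;> norm_num
  · intro h
    rw [if_neg]
    rintro ⟨h1, h2, -⟩
    apply h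
    intro p hp hpn
    rw [(Nat.prime_dvd_prime_iff_eq hp h1).1 hpn]
    exact h2

/-- `p ^ 2 ∣ n` for some prime `p ∈ (z0, z]`. -/
def HasSq (z0 z n : ℕ) : Prop := ∃ p : ℕ, p.Prime ∧ z0 < p ∧ p ≤ z ∧ p ^ 2 ∣ n

/-- The error in `rg_pow_expand`. -/
noncomputable def exErr (R k : ℕ) : ℝ :=
  ((k : ℝ) + 1) ^ R + ∑ s ∈ range (R + 1), (k : ℝ) ^ s / (s.factorial : ℝ) * ((s : ℝ) + k + 1) ^ R

theorem exErr_pos (R k : ℕ) : 0 < exErr R k := by
  unfold exErr
  have : 0 ≤ ∑ s ∈ range (R + 1), (k : ℝ) ^ s / (s.factorial : ℝ) * ((s : ℝ) + k + 1) ^ R :=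
    sum_nonneg fun _ _ => by positivity
  positivity

/-- **The powers of the indicator of rough numbers on the second level.** -/
theorem rg_pow_expand {z0 z R k n : ℕ} (h0 : 1 ≤ z0) (h : z0 ≤ z) (hn0 : n ≠ 0)
    (hn : n ≤ z0 ^ (R + 1)) (hsq : ¬ (Rough z0 n ∧ HasSq z0 z n)) :
    (rg z ^ k) n = ∑ s ∈ range (R + 1), (-(k : ℝ)) ^ s / (s.factorial : ℝ) *
      (pb z0 z ^ s * rg z0 ^ k) n := by
  classical
  have h1 : ∑ s ∈ range (R + 1), (-(k : ℝ)) ^ s / (s.factorial : ℝ) * (pb z0 z ^ s * rg z0 ^ k) n =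
      (exk z0 z R k * rg z0 ^ k) n := by
    unfold exk
    rw [sum_mul, af_sum]
    exact sum_congr rfl fun s _ => by rw [smul_mul_assoc, af_smul]
  rw [h1, rg_expand h, mul_pow, mul_apply, mul_apply]
  refine sum_congr rfl fun p hp => ?_
  obtain ⟨k1, k2, k3, -⟩ := pair_ne hp
  by_cases hr : Rough z0 n
  · have hOm : Ω n ≤ R := by
      rcases eq_or_ne n 1 with rfl | hn1
      · rw [cardFactors_one]
        exact Nat.zero_le _
      · exact hr.cardFactors_le h0 (by omega) hn
    have hOd : Ω p.1 ≤ R := by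
      rw [← k1, cardFactors_mul k2 k3] at hOm
      omega
    congr 1
    refine mz_pow_eq_exk k2 hOd fun hb => ?_
    by_contra hs
    apply hsq
    refine ⟨hr, ?_⟩
    obtain ⟨q, hq, hqq⟩ : ∃ q : ℕ, q.Prime ∧ q * q ∣ p.1 := by
      rw [Nat.squarefree_iff_prime_squarefree] at hs
      push Not at hs
      exact hs
    have hb' := hb q hq ((Dvd.intro _ rfl).trans hqq)
    refine ⟨q, hq, hb'.1, hb'.2, ?_⟩
    rw [pow_two]
    exact hqq.trans (Dvd.intro _ k1)
  · by_cases hb : Btw z0 z p.1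
    · have hc : ¬ Rough z0 p.2 := fun hc => hr (by
        rw [← k1]
        exact Rough.mul (fun q hq hqd => (hb q hq hqd).1) hc)
      have k4 := ((dom_rg z0).pow (k := k) p.2).2.2 hc
      rw [k4, mul_zero, mul_zero]
    · have k5 : exk z0 z R k p.1 = 0 := by
        unfold exk
        rw [af_sum]
        refine sum_eq_zero fun s _ => ?_
        rw [af_smul, pb_pow_eq_zero z0 z s k2 (Or.inr hb), mul_zero]
      rw [mz_pow_btw z0 z k hb, k5]

/-- The difference is bounded in general and vanishes if `n` is not `z0`-rough. -/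
theorem rg_pow_expand_error {z0 z R k n : ℕ} (h0 : 1 ≤ z0) (h : z0 ≤ z) (hn : n ≤ z0 ^ (R + 1))
    [Decidable (Rough z0 n ∧ HasSq z0 z n)] :
    |(rg z ^ k) n - ∑ s ∈ range (R + 1), (-(k : ℝ)) ^ s / (s.factorial : ℝ) *
      (pb z0 z ^ s * rg z0 ^ k) n| ≤ if Rough z0 n ∧ HasSq z0 z n then exErr R k else 0 := by
  rcases eq_or_ne n 0 with rfl | hn0
  · simp only [ArithmeticFunction.map_zero, mul_zero, sum_const_zero, sub_self, abs_zero]
    split_ifs
    · exact (exErr_pos R k).le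
    · exact le_rfl
  by_cases hc : Rough z0 n ∧ HasSq z0 z n
  · rw [if_pos hc]
    have hOm : Ω n ≤ R := by
      rcases eq_or_ne n 1 with rfl | hn1
      · rw [cardFactors_one]
        exact Nat.zero_le _
      · exact hc.1.cardFactors_le h0 (by omega) hn
    have hb : ∀ (z' j : ℕ) (f : ArithmeticFunction ℝ), Dom z' j f → 0 ≤ f n ∧
        f n ≤ ((j : ℝ) + 1) ^ R := by
      intro z' j f hf
      refine ⟨(hf n).1, ?_⟩
      have h1 : (1 : ℝ) ≤ (j : ℝ) + 1 := by
        have : (0 : ℝ) ≤ j := Nat.cast_nonneg _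
        linarith
      by_cases hr : Rough z' n
      · calc f n ≤ (j : ℝ) ^ Ω n := (hf n).2.1 hn0 hr
          _ ≤ ((j : ℝ) + 1) ^ Ω n := pow_le_pow_left₀ (Nat.cast_nonneg _) (by linarith) _
          _ ≤ ((j : ℝ) + 1) ^ R := pow_le_pow_right₀ h1 hOm
      · rw [(hf n).2.2 hr]
        positivity
    refine (abs_sub _ _).trans ?_
    unfold exErr
    refine add_le_add ?_ ?_
    · obtain ⟨g1, g2⟩ := hb z k (rg z ^ k) ((dom_rg z).pow (k := k))
      rw [abs_of_nonneg g1]
      exact g2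
    · refine (abs_sum_le_sum_abs _ _).trans (sum_le_sum fun s _ => ?_)
      obtain ⟨g1, g2⟩ := hb z0 (s + k) (pb z0 z ^ s * rg z0 ^ k)
        (((dom_pb z0 z).pow (k := s)).mul ((dom_rg z0).pow (k := k)))
      have hf : (0 : ℝ) < (s.factorial : ℝ) := by exact_mod_cast Nat.factorial_pos _
      rw [abs_mul, abs_div, abs_pow, abs_neg, Nat.abs_cast, abs_of_pos hf, abs_of_nonneg g1]
      push_cast at g2
      exact mul_le_mul_of_nonneg_left g2 (by positivity)
  · rw [if_neg hc, rg_pow_expand h0 h hn0 hn hc, sub_self, abs_zero]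

end Pool.Agent.Work.MP_a8fbd7_nt.OX.ID
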