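import Pool.Agent.Work.MP_a8fbd7_nt.OX.ID.Fam
import Pool.Agent.Work.MP_56b8f5_nt.WM.I_Mert

/-!
# The fundamental lemma of the sieve (Brun-Hooley)

For all `b`, `z` there are weights `lp`, `lm` (the Möbius function restricted to two sets of
squarefree numbers `d ≤ z ^ (4 b + 6)` with prime factors `≤ z`) with

  `∑_{d ∣ n} lm d ≤ 1_{n rough} ≤ ∑_{d ∣ n} lp d`,
  `W z (1 - e) ≤ ∑ lm d / d ≤ W z ≤ ∑ lp d / d ≤ W z (1 + e)`, `e = C L ^ (2 b + 1) / (2 b + 1)!`.
-/

set_option autoImplicit false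

namespace Pool.Agent.Work.MP_a8fbd7_nt.OX.ID

open Finset

/-- `∏_{p ≤ z} (1 - 1/p)`. -/
noncomputable def Wz (z : ℕ) : ℝ := ∏ p ∈ prs z, (1 - 1 / (p : ℝ))

/-! ### The weights -/

open Classical in
/-- The Möbius function restricted to the products of the members of `F`. -/
noncomputable def lam (F : Finset (Finset ℕ)) (d : ℕ) : ℝ :=
  if Squarefree d ∧ d.primeFactors ∈ F then ((ArithmeticFunction.moebius d : ℤ) : ℝ) else 0

theorem lam_abs_le (F : Finset (Finset ℕ)) (d : ℕ) : |lam F d| ≤ 1 := by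
  unfold lam
  split_ifs with h
  · have := ArithmeticFunction.abs_moebius_le_one (n := d)
    exact_mod_cast this
  · simp

/-- All members of `F` are sets of primes. -/
def PrF (F : Finset (Finset ℕ)) : Prop := ∀ S ∈ F, ∀ p ∈ S, p.Prime

theorem pf_prod {S : Finset ℕ} (hS : ∀ p ∈ S, p.Prime) : (∏ p ∈ S, p).primeFactors = S :=
  Nat.primeFactors_prod hS

theorem sqf_prod {S : Finset ℕ} (hS : ∀ p ∈ S, p.Prime) : Squarefree (∏ p ∈ S, p) := by
  refine Finset.squarefree_prod_of_pairwise_isCoprime ?_ fun p hp => (hS p hp).squarefree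
  intro p hp q hq hpq
  exact Nat.coprime_iff_isRelPrime.1 ((Nat.coprime_primes (hS p hp) (hS q hq)).2 hpq)

theorem moebius_prod {S : Finset ℕ} (hS : ∀ p ∈ S, p.Prime) :
    ((ArithmeticFunction.moebius (∏ p ∈ S, p) : ℤ) : ℝ) = (-1) ^ S.card := by
  have h1 := ArithmeticFunction.isMultiplicative_moebius.map_prod_of_prime S hS
  rw [h1, prod_congr rfl fun p hp => ArithmeticFunction.moebius_apply_prime (hS p hp), prod_const]
  push_cast
  rfl

theorem lam_prod {F : Finset (Finset ℕ)} (hF : PrF F) {S : Finset ℕ} (hS : S ∈ F) :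
    lam F (∏ p ∈ S, p) = (-1) ^ S.card := by
  unfold lam
  rw [if_pos ⟨sqf_prod (hF S hS), by rw [pf_prod (hF S hS)]; exact hS⟩, moebius_prod (hF S hS)]

theorem lam_ne_zero {F : Finset (Finset ℕ)} {d : ℕ} (h : lam F d ≠ 0) :
    Squarefree d ∧ ∃ S ∈ F, d = ∏ p ∈ S, p := by
  unfold lam at h
  split_ifs at h with h1
  · exact ⟨h1.1, d.primeFactors, h1.2, (Nat.prod_primeFactors_of_squarefree h1.1).symm⟩
  · exact absurd rfl h

/-- A sum over the family as a sum over integers. -/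
theorem sum_lam {F : Finset (Finset ℕ)} (hF : PrF F) (h : ℕ → ℝ) (D : Finset ℕ)
    (hD : ∀ S ∈ F, (∏ p ∈ S, p) ∉ D → h (∏ p ∈ S, p) = 0) :
    ∑ d ∈ D, lam F d * h d = ∑ S ∈ F, (-1) ^ S.card * h (∏ p ∈ S, p) := by
  classical
  have h1 : ∑ S ∈ F, (-1 : ℝ) ^ S.card * h (∏ p ∈ S, p) =
      ∑ d ∈ F.image (fun S => ∏ p ∈ S, p), lam F d * h d := by
    rw [sum_image]
    · exact sum_congr rfl fun S hS => by rw [lam_prod hF hS]
    · intro S hS T hT hST
      simp only at hST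
      rw [← pf_prod (hF S hS), hST, pf_prod (hF T hT)]
  rw [h1]
  have h2 : ∑ d ∈ D, lam F d * h d = ∑ d ∈ D ∪ F.image (fun S => ∏ p ∈ S, p), lam F d * h d := by
    refine sum_subset subset_union_left fun d hd hd' => ?_
    rcases mem_union.1 hd with hd | hd
    · exact absurd hd hd'
    · obtain ⟨S, hS, rfl⟩ := mem_image.1 hd
      rw [hD S hS hd', mul_zero]
  rw [h2]
  symm
  refine sum_subset subset_union_right fun d hd hd' => ?_
  by_contra hne
  have h3 : lam F d ≠ 0 := fun h0 => hne (by rw [h0, zero_mul])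
  obtain ⟨-, S, hS, rfl⟩ := lam_ne_zero h3
  exact hd' (mem_image_of_mem _ hS)

open Classical in
/-- The indicator weights of an integer. -/
noncomputable def gn (n p : ℕ) : ℝ := if p ∣ n then 1 else 0

theorem val_gn {F : Finset (Finset ℕ)} (hF : PrF F) {n : ℕ} (hn : n ≠ 0) :
    val F (gn n) = ∑ d ∈ n.divisors, lam F d := by
  classical
  have h1 := sum_lam hF (fun d => if d ∣ n then (1 : ℝ) else 0) n.divisors (fun S _ h => by
    have h' : ¬ (∏ p ∈ S, p) ∣ n := fun h2 => h (Nat.mem_divisors.2 ⟨h2, hn⟩)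
    simp only [if_neg h'])
  have h2 : ∑ d ∈ n.divisors, lam F d * (if d ∣ n then (1 : ℝ) else 0) = ∑ d ∈ n.divisors, lam F d :=
    sum_congr rfl fun d hd => by rw [if_pos (Nat.dvd_of_mem_divisors hd), mul_one]
  rw [← h2, h1]
  unfold val
  refine sum_congr rfl fun S hS => ?_
  have h3 : ∀ p ∈ S, -gn n p = (-1 : ℝ) * gn n p := fun p _ => by ring
  rw [prod_congr rfl h3, prod_mul_distrib, prod_const]
  congr 1
  by_cases h : (∏ p ∈ S, p) ∣ n
  · simp only [if_pos h]
    refine prod_eq_one fun p hp => ?_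
    unfold gn
    rw [if_pos ((dvd_prod_of_mem _ hp).trans h)]
  · simp only [if_neg h]
    by_contra hne
    have h4 : ∀ p ∈ S, p ∣ n := by
      intro p hp
      by_contra h5
      apply hne
      refine prod_eq_zero hp ?_
      unfold gn
      rw [if_neg h5]
    exact h (Finset.prod_primes_dvd n (fun p hp => (hF S hS p hp).prime) h4)

theorem val_inv {F : Finset (Finset ℕ)} (hF : PrF F) {D : ℕ} (hD : ∀ S ∈ F, ∏ p ∈ S, p ≤ D) :
    val F (fun p => 1 / (p : ℝ)) = ∑ d ∈ Icc 1 D, lam F d / (d : ℝ) := by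
  have h1 := sum_lam hF (fun d => 1 / (d : ℝ)) (Icc 1 D) (fun S hS h => by
    exfalso
    apply h
    rw [mem_Icc]
    exact ⟨prod_pos fun p hp => (hF S hS p hp).pos, hD S hS⟩)
  have h2 : ∑ d ∈ Icc 1 D, lam F d / (d : ℝ) = ∑ d ∈ Icc 1 D, lam F d * (1 / (d : ℝ)) :=
    sum_congr rfl fun d _ => by rw [mul_one_div]
  rw [h2, h1]
  unfold val
  refine sum_congr rfl fun S hS => ?_
  have h3 : ∀ p ∈ S, -(1 / (p : ℝ)) = (-1 : ℝ) * (1 / (p : ℝ)) := fun p _ => by ring
  rw [prod_congr rfl h3, prod_mul_distrib, prod_const]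
  congr 1
  rw [Nat.cast_prod, prod_div_distrib, prod_const_one]

theorem prod_gn (z n : ℕ) [Decidable (Rough z n)] :
    ∏ p ∈ prs z, (1 - gn n p) = if Rough z n then 1 else 0 := by
  split_ifs with h
  · refine prod_eq_one fun p hp => ?_
    rw [mem_prs] at hp
    have : ¬ p ∣ n := fun h' => by
      have := h p hp.2 h'
      omega
    unfold gn
    rw [if_neg this, sub_zero]
  · unfold Rough at h
    push Not at h
    obtain ⟨p, hp, hpn, hpz⟩ := h
    refine prod_eq_zero (mem_prs.2 ⟨hpz, hp⟩) ?_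
    unfold gn
    rw [if_pos hpn, sub_self]

/-! ### Mertens -/

/-- The sums of `1/p` over the ranges `(√z, z]` are bounded. -/
theorem sum_pp : ∃ L : ℝ, 1 ≤ L ∧ ∀ z : ℕ, ∑ p ∈ pp z, 1 / (p : ℝ) ≤ L := by
  obtain ⟨C, hC, hM⟩ := Pool.Agent.Work.MP_56b8f5_nt.WM.Mert_pf
  have hS : ∀ z, Pool.Agent.Work.MP_56b8f5_nt.WM.S1 z = ∑ p ∈ prs z, 1 / (p : ℝ) := fun z => rfl
  refine ⟨max 1 (Real.log (4 * C ^ 2)), le_max_left _ _, fun z => ?_⟩
  rcases Nat.lt_or_ge (Nat.sqrt z) 2 with h | h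
  · refine le_trans ?_ (le_max_left _ _)
    have hz : z < 4 := by
      have := Nat.sqrt_lt'.1 h
      simpa using this
    have hsub : pp z ⊆ {2, 3} := by
      intro p hp
      rw [mem_pp] at hp
      have := hp.1.2.two_le
      rw [mem_insert, mem_singleton]
      omega
    calc ∑ p ∈ pp z, 1 / (p : ℝ) ≤ ∑ p ∈ ({2, 3} : Finset ℕ), 1 / (p : ℝ) :=
          sum_le_sum_of_subset_of_nonneg hsub fun p _ _ => by positivity
      _ ≤ 1 := by
          rw [sum_pair (by norm_num)]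
          norm_num
  · refine le_trans ?_ (le_max_right _ _)
    have hz2 : 2 ≤ z := h.trans (Nat.sqrt_le_self z)
    have h1 := (hM z hz2).1
    have h2 := (hM (Nat.sqrt z) h).2
    rw [hS] at h1 h2
    have h3 : ∑ p ∈ prs z, 1 / (p : ℝ) =
        ∑ p ∈ pp z, 1 / (p : ℝ) + ∑ p ∈ prs (Nat.sqrt z), 1 / (p : ℝ) := by
      rw [prs_eq, sum_union (disj_pp z)]
    have hs1 : (1 : ℝ) < (Nat.sqrt z : ℝ) := by exact_mod_cast (by omega : 1 < Nat.sqrt z)
    have hls : 0 < Real.log (Nat.sqrt z : ℝ) := Real.log_pos hs1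
    have h4 : Real.log (z : ℝ) ≤ 4 * Real.log (Nat.sqrt z : ℝ) := by
      have h5 : z ≤ (Nat.sqrt z) ^ 4 := by
        have h6 : z < (Nat.sqrt z + 1) ^ 2 := by
          have := Nat.lt_succ_sqrt' z
          simpa using this
        have h7 : Nat.sqrt z + 1 ≤ Nat.sqrt z ^ 2 := by nlinarith
        have h8 : (Nat.sqrt z + 1) ^ 2 ≤ (Nat.sqrt z ^ 2) ^ 2 := Nat.pow_le_pow_left h7 2
        rw [← pow_mul, show 2 * 2 = 4 by norm_num] at h8
        omega
      have h9 : (z : ℝ) ≤ (Nat.sqrt z : ℝ) ^ 4 := by exact_mod_cast h5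
      calc Real.log (z : ℝ) ≤ Real.log ((Nat.sqrt z : ℝ) ^ 4) :=
            Real.log_le_log (by exact_mod_cast (by omega : 0 < z)) h9
        _ = 4 * Real.log (Nat.sqrt z : ℝ) := by
            rw [Real.log_pow]
            norm_num
    have hC0 : 0 < C := by linarith
    rw [Real.le_log_iff_exp_le (by positivity)]
    set x := ∑ p ∈ pp z, 1 / (p : ℝ)
    set y := ∑ p ∈ prs (Nat.sqrt z), 1 / (p : ℝ)
    rw [h3, Real.exp_add] at h1
    have hy : 0 < Real.exp y := Real.exp_pos _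
    have h5 : Real.exp x * Real.exp y ≤ 4 * C ^ 2 * Real.exp y := by
      calc Real.exp x * Real.exp y ≤ C * Real.log z := h1
        _ ≤ C * (4 * Real.log (Nat.sqrt z : ℝ)) := mul_le_mul_of_nonneg_left h4 hC0.le
        _ ≤ C * (4 * (C * Real.exp y)) := by
            apply mul_le_mul_of_nonneg_left _ hC0.le
            linarith
        _ = 4 * C ^ 2 * Real.exp y := by ring
    exact le_of_mul_le_mul_right h5 hy

theorem one_sub_ge {x : ℝ} (h0 : 0 ≤ x) (h1 : x ≤ 1 / 2) : Real.exp (-(2 * x)) ≤ 1 - x := by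
  have h2 : 0 < 1 - x := by linarith
  rw [Real.exp_neg, inv_le_comm₀ (Real.exp_pos _) h2]
  have h3 : 2 * x + 1 ≤ Real.exp (2 * x) := Real.add_one_le_exp _
  refine le_trans ?_ h3
  rw [inv_eq_one_div, div_le_iff₀ h2]
  nlinarith

theorem inv_prime {p : ℕ} (hp : p.Prime) : 0 ≤ 1 / (p : ℝ) ∧ 1 / (p : ℝ) ≤ 1 / 2 := by
  have : (2 : ℝ) ≤ p := by exact_mod_cast hp.two_le
  exact ⟨by positivity, one_div_le_one_div_of_le (by norm_num) this⟩

/-- The products over the ranges are bounded below. -/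
theorem prod_pp {L : ℝ} (hL : ∀ z : ℕ, ∑ p ∈ pp z, 1 / (p : ℝ) ≤ L) (z : ℕ) :
    Real.exp (-(2 * L)) ≤ ∏ p ∈ pp z, (1 - 1 / (p : ℝ)) := by
  have h1 : ∏ p ∈ pp z, Real.exp (-(2 * (1 / (p : ℝ)))) ≤ ∏ p ∈ pp z, (1 - 1 / (p : ℝ)) :=
    prod_le_prod (fun p _ => (Real.exp_pos _).le) fun p hp =>
      one_sub_ge (inv_prime (mem_pp.1 hp).1.2).1 (inv_prime (mem_pp.1 hp).1.2).2
  refine le_trans ?_ h1
  rw [← Real.exp_sum]
  apply Real.exp_le_exp.2
  rw [sum_neg_distrib, ← mul_sum]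
  have := hL z
  linarith

theorem Wz_pos (z : ℕ) : 0 < Wz z := prod_pos fun p hp => by
  have := (inv_prime (mem_prs.1 hp).2).2
  linarith

/-- Mertens' bounds for the sieve product. -/
theorem Wz_bounds : ∃ C : ℝ, 1 ≤ C ∧ ∀ z : ℕ, 2 ≤ z →
    1 / (C * Real.log z) ≤ Wz z ∧ Wz z ≤ C / Real.log z := by
  obtain ⟨C, hC, hM⟩ := Pool.Agent.Work.MP_56b8f5_nt.WM.Mert_pf
  have hS : ∀ z, Pool.Agent.Work.MP_56b8f5_nt.WM.S1 z = ∑ p ∈ prs z, 1 / (p : ℝ) := fun z => rfl
  refine ⟨C * Real.exp 1, ?_, fun z hz => ?_⟩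
  · have := Real.add_one_le_exp (1 : ℝ)
    nlinarith
  obtain ⟨h1, h2⟩ := hM z hz
  rw [hS] at h1 h2
  set x := ∑ p ∈ prs z, 1 / (p : ℝ) with hx
  have hz1 : (1 : ℝ) < (z : ℝ) := by exact_mod_cast (by omega : 1 < z)
  have hl : 0 < Real.log (z : ℝ) := Real.log_pos hz1
  have hC0 : 0 < C := by linarith
  have hup : Wz z ≤ Real.exp (-x) := by
    unfold Wz
    rw [hx, ← sum_neg_distrib, Real.exp_sum]
    refine prod_le_prod (fun p hp => ?_) fun p hp => ?_
    · have := (inv_prime (mem_prs.1 hp).2).2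
      linarith
    · have := Real.add_one_le_exp (-(1 / (p : ℝ)))
      linarith
  have hlow : Real.exp (-x - 1) ≤ Wz z := by
    have h3 : ∀ p ∈ prs z, Real.exp (-(1 / (p : ℝ)) - 1 / ((p : ℝ) * (p - 1))) ≤ 1 - 1 / (p : ℝ) := by
      intro p hp
      have hp2 : (2 : ℝ) ≤ p := by exact_mod_cast (mem_prs.1 hp).2.two_le
      have hpp : (0 : ℝ) < p := by linarith
      have hp1 : (0 : ℝ) < (p : ℝ) - 1 := by linarith
      have h4 : -(1 / (p : ℝ)) - 1 / ((p : ℝ) * (p - 1)) = -(1 / ((p : ℝ) - 1)) := by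
        field_simp
        ring
      have h5 : (1 : ℝ) - 1 / (p : ℝ) = (1 + 1 / ((p : ℝ) - 1))⁻¹ := by
        field_simp
        ring
      rw [h4, h5, Real.exp_neg]
      apply inv_anti₀ (by positivity)
      have := Real.add_one_le_exp (1 / ((p : ℝ) - 1))
      linarith
    have h6 : ∏ p ∈ prs z, Real.exp (-(1 / (p : ℝ)) - 1 / ((p : ℝ) * (p - 1))) ≤ Wz z :=
      prod_le_prod (fun p _ => (Real.exp_pos _).le) h3
    refine le_trans ?_ h6
    rw [← Real.exp_sum]
    apply Real.exp_le_exp.2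
    rw [sum_sub_distrib, sum_neg_distrib, ← hx]
    have h7 : ∑ p ∈ prs z, 1 / ((p : ℝ) * (p - 1)) ≤ 1 := by
      have h8 : ∀ N : ℕ, ∑ k ∈ range N, 1 / (((k : ℝ) + 2) * ((k : ℝ) + 1)) = 1 - 1 / ((N : ℝ) + 1) := by
        intro N
        induction N with
        | zero => simp
        | succ N ih =>
          rw [sum_range_succ, ih]
          push_cast
          field_simp
          ring
      have h9 : ∑ p ∈ prs z, 1 / ((p : ℝ) * (p - 1)) ≤
          ∑ p ∈ (range (z + 1)).image (fun k : ℕ => k + 2), 1 / (((p : ℕ) : ℝ) * ((p : ℝ) - 1)) := by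
        refine sum_le_sum_of_subset_of_nonneg ?_ ?_
        · intro p hp
          rw [mem_prs] at hp
          rw [mem_image]
          have := hp.2.two_le
          exact ⟨p - 2, mem_range.2 (by omega), by omega⟩
        · intro p hp _
          obtain ⟨k, -, rfl⟩ := mem_image.1 hp
          push_cast
          have : (0 : ℝ) ≤ (k : ℝ) + 2 - 1 := by
            have : (0 : ℝ) ≤ k := by positivity
            linarith
          positivity
      rw [sum_image (by intro a _ b _ h; simpa using h)] at h9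
      have h10 : ∑ k ∈ range (z + 1), 1 / (((k + 2 : ℕ) : ℝ) * (((k + 2 : ℕ) : ℝ) - 1)) =
          ∑ k ∈ range (z + 1), 1 / (((k : ℝ) + 2) * ((k : ℝ) + 1)) := by
        refine sum_congr rfl fun k _ => ?_
        push_cast
        ring_nf
      rw [h10, h8] at h9
      have : 0 ≤ 1 / (((z + 1 : ℕ) : ℝ) + 1) := by positivity
      linarith
    linarith
  have hex : 0 < Real.exp x := Real.exp_pos _
  constructor
  · refine le_trans ?_ hlow
    rw [sub_eq_add_neg, Real.exp_add, Real.exp_neg, Real.exp_neg, ← mul_inv, ← one_div]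
    apply one_div_le_one_div_of_le (by positivity)
    have he : 0 < Real.exp 1 := Real.exp_pos _
    nlinarith
  · refine hup.trans ?_
    rw [Real.exp_neg, le_div_iff₀ hl, inv_mul_le_iff₀ hex]
    have he : 1 ≤ Real.exp 1 := by
      have := Real.add_one_le_exp (1 : ℝ)
      linarith
    calc Real.log z ≤ C * Real.exp x := h2
      _ ≤ C * Real.exp 1 * Real.exp x := by
          have : 0 < C * Real.exp x := by positivity
          nlinarith
      _ = Real.exp x * (C * Real.exp 1) := by ring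

/-! ### The error terms -/

/-- The error of one range. -/
noncomputable def eb (L : ℝ) (b : ℕ) : ℝ :=
  Real.exp (2 * L) * (L ^ (2 * b + 1) / ((2 * b + 1).factorial : ℝ))

theorem eb_nonneg {L : ℝ} (hL : 0 ≤ L) (b : ℕ) : 0 ≤ eb L b := by
  unfold eb
  positivity

/-- The sum of the errors. -/
noncomputable def es (L : ℝ) (J b : ℕ) : ℝ := ∑ i ∈ range J, eb L (b + i)

theorem es_nonneg {L : ℝ} (hL : 0 ≤ L) (J b : ℕ) : 0 ≤ es L J b :=
  sum_nonneg fun _ _ => eb_nonneg hL _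

theorem es_succ (L : ℝ) (J b : ℕ) : es L (J + 1) b = eb L b + es L J (b + 1) := by
  unfold es
  rw [sum_range_succ', add_comm]
  congr 1
  exact sum_congr rfl fun i _ => by rw [show b + (i + 1) = b + 1 + i by ring]

theorem es_le {L : ℝ} (hL : 1 ≤ L) (J b : ℕ) :
    es L J b ≤ Real.exp (3 * L) * (L ^ (2 * b + 1) / ((2 * b + 1).factorial : ℝ)) := by
  have hL0 : 0 ≤ L := by linarith
  have h1 : ∀ i : ℕ, eb L (b + i) ≤ Real.exp (2 * L) * (L ^ (2 * b + 1) / ((2 * b + 1).factorial : ℝ)) *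
      (L ^ (2 * i) / ((2 * i).factorial : ℝ)) := by
    intro i
    unfold eb
    have h2 : (2 * b + 1).factorial * (2 * i).factorial ≤ (2 * (b + i) + 1).factorial := by
      have := Nat.factorial_mul_factorial_dvd_factorial_add (2 * b + 1) (2 * i)
      rw [show 2 * b + 1 + 2 * i = 2 * (b + i) + 1 by ring] at this
      exact Nat.le_of_dvd (Nat.factorial_pos _) this
    have h3 : ((2 * b + 1).factorial : ℝ) * ((2 * i).factorial : ℝ) ≤
        ((2 * (b + i) + 1).factorial : ℝ) := by exact_mod_cast h2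
    have p1 : (0 : ℝ) < ((2 * b + 1).factorial : ℝ) := by exact_mod_cast Nat.factorial_pos _
    have p2 : (0 : ℝ) < ((2 * i).factorial : ℝ) := by exact_mod_cast Nat.factorial_pos _
    rw [mul_assoc, div_mul_div_comm, ← pow_add, show 2 * b + 1 + 2 * i = 2 * (b + i) + 1 by ring]
    apply mul_le_mul_of_nonneg_left _ (Real.exp_pos _).le
    exact div_le_div_of_nonneg_left (by positivity) (by positivity) h3
  have h4 : ∑ i ∈ range J, L ^ (2 * i) / ((2 * i).factorial : ℝ) ≤ Real.exp L := by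
    have h5 : ∑ i ∈ range J, L ^ (2 * i) / ((2 * i).factorial : ℝ) =
        ∑ k ∈ (range J).image (fun i : ℕ => 2 * i), L ^ k / (k.factorial : ℝ) := by
      rw [sum_image (by intro a _ b _ h; simpa using h)]
    rw [h5]
    refine le_trans ?_ (Real.sum_le_exp_of_nonneg hL0 (2 * J))
    refine sum_le_sum_of_subset_of_nonneg ?_ fun k _ _ => by positivity
    intro k hk
    obtain ⟨i, hi, rfl⟩ := mem_image.1 hk
    rw [mem_range] at hi ⊢
    omega
  have hP : 0 ≤ Real.exp (2 * L) * (L ^ (2 * b + 1) / ((2 * b + 1).factorial : ℝ)) := by positivity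
  calc es L J b ≤ ∑ i ∈ range J, Real.exp (2 * L) * (L ^ (2 * b + 1) / ((2 * b + 1).factorial : ℝ)) *
        (L ^ (2 * i) / ((2 * i).factorial : ℝ)) := sum_le_sum fun i _ => h1 i
    _ = Real.exp (2 * L) * (L ^ (2 * b + 1) / ((2 * b + 1).factorial : ℝ)) *
        ∑ i ∈ range J, L ^ (2 * i) / ((2 * i).factorial : ℝ) := by rw [mul_sum]
    _ ≤ Real.exp (2 * L) * (L ^ (2 * b + 1) / ((2 * b + 1).factorial : ℝ)) * Real.exp L :=
        mul_le_mul_of_nonneg_left h4 hP
    _ = Real.exp (3 * L) * (L ^ (2 * b + 1) / ((2 * b + 1).factorial : ℝ)) := by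
        rw [show 3 * L = 2 * L + L by ring, Real.exp_add]
        ring

theorem val_err {L : ℝ} (hL1 : 1 ≤ L) (hL : ∀ z : ℕ, ∑ p ∈ pp z, 1 / (p : ℝ) ≤ L) :
    ∀ (J b z : ℕ), z < 2 ^ 2 ^ J →
      val (fam J b z).1 (fun p => 1 / (p : ℝ)) ≤ Wz z * Real.exp (es L J b) ∧
      val (fam J b z).1 (fun p => 1 / (p : ℝ)) - val (fam J b z).2 (fun p => 1 / (p : ℝ)) ≤
        Wz z * (es L J b * Real.exp (es L J b)) := by
  have hL0 : 0 ≤ L := by linarith
  intro J
  induction J with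
  | zero =>
    intro b z hz
    have : prs z = ∅ := prs_small (by simpa using hz)
    have hW : Wz z = 1 := by
      unfold Wz
      rw [this, prod_empty]
    have h : ∀ F : Finset (Finset ℕ), F = {∅} → val F (fun p => 1 / (p : ℝ)) = 1 := by
      intro F hF
      rw [hF]
      unfold val
      simp
    have he : es L 0 b = 0 := by
      unfold es
      simp
    rw [h (fam 0 b z).1 rfl, h (fam 0 b z).2 rfl, hW, he]
    simp
  | succ J ih =>
    intro b z hz
    have hs : Nat.sqrt z < 2 ^ 2 ^ J := by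
      rw [Nat.sqrt_lt', ← pow_mul, ← pow_succ]
      exact hz
    obtain ⟨i1, i2⟩ := ih (b + 1) (Nat.sqrt z) hs
    have hg' : ∀ p ∈ pp z, 0 ≤ 1 / (p : ℝ) ∧ 1 / (p : ℝ) ≤ 1 := fun p hp => by
      have := inv_prime (mem_pp.1 hp).1.2
      exact ⟨this.1, by linarith⟩
    have b2 := bon_le hg' b
    have b1 := le_bon hg' b
    have e0 := el_nonneg (fun p hp => (hg' p hp).1) (2 * b + 1)
    have e1 := el_le (fun p hp => (hg' p hp).1) (2 * b + 1)
    have w1 := prod_pp hL z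
    have hW : Wz z = (∏ p ∈ pp z, (1 - 1 / (p : ℝ))) * Wz (Nat.sqrt z) := by
      unfold Wz
      rw [prod_prs z fun p => 1 - 1 / (p : ℝ)]
    rw [val_fp_succ, val_fm_succ, es_succ, hW]
    have hWs := Wz_pos (Nat.sqrt z)
    have hE : el (pp z) (fun p => 1 / (p : ℝ)) (2 * b + 1) ≤
        (∏ p ∈ pp z, (1 - 1 / (p : ℝ))) * eb L b := by
      have h1 : el (pp z) (fun p => 1 / (p : ℝ)) (2 * b + 1) ≤
          L ^ (2 * b + 1) / ((2 * b + 1).factorial : ℝ) := by
        refine e1.trans ?_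
        apply div_le_div_of_nonneg_right _ (by positivity)
        exact pow_le_pow_left₀ (sum_nonneg fun p hp => (hg' p hp).1) (hL z) _
      refine h1.trans ?_
      unfold eb
      have h2 : Real.exp (-(2 * L)) * (Real.exp (2 * L) * (L ^ (2 * b + 1) / ((2 * b + 1).factorial : ℝ)))
          ≤ (∏ p ∈ pp z, (1 - 1 / (p : ℝ))) *
            (Real.exp (2 * L) * (L ^ (2 * b + 1) / ((2 * b + 1).factorial : ℝ))) :=
        mul_le_mul_of_nonneg_right w1 (by positivity)
      rwa [← mul_assoc, ← Real.exp_add, neg_add_cancel, Real.exp_zero, one_mul] at h2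
    set X := bon (pp z) (fun p => 1 / (p : ℝ)) (2 * b)
    set E := el (pp z) (fun p => 1 / (p : ℝ)) (2 * b + 1)
    set w := ∏ p ∈ pp z, (1 - 1 / (p : ℝ))
    set W := Wz (Nat.sqrt z)
    set Vp := val (fam J (b + 1) (Nat.sqrt z)).1 (fun p => 1 / (p : ℝ))
    set Vm := val (fam J (b + 1) (Nat.sqrt z)).2 (fun p => 1 / (p : ℝ))
    set e := eb L b
    set s := es L J (b + 1)
    have hw : 0 < w := (Real.exp_pos _).trans_le w1
    have he : 0 ≤ e := eb_nonneg hL0 b
    have hs0 : 0 ≤ s := es_nonneg hL0 _ _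
    have hX : X ≤ w * (1 + e) := by linarith
    have hX0 : 0 ≤ X := hw.le.trans b1
    have hexp : 1 + e ≤ Real.exp e := by
      have := Real.add_one_le_exp e
      linarith
    have hes : 0 < Real.exp s := Real.exp_pos _
    have hWe : 0 ≤ W * Real.exp s := by positivity
    have hWse : 0 ≤ W * (s * Real.exp s) := by positivity
    rw [Real.exp_add]
    constructor
    · calc X * Vp ≤ X * (W * Real.exp s) := mul_le_mul_of_nonneg_left i1 hX0
        _ ≤ (w * (1 + e)) * (W * Real.exp s) := mul_le_mul_of_nonneg_right hX hWe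
        _ ≤ (w * Real.exp e) * (W * Real.exp s) := by
            apply mul_le_mul_of_nonneg_right _ hWe
            exact mul_le_mul_of_nonneg_left hexp hw.le
        _ = w * W * (Real.exp e * Real.exp s) := by ring
    · have k1 : X * (Vp - Vm) ≤ (w * (1 + e)) * (W * (s * Real.exp s)) :=
        (mul_le_mul_of_nonneg_left i2 hX0).trans (mul_le_mul_of_nonneg_right hX hWse)
      have k2 : E * Vp ≤ (w * e) * (W * Real.exp s) :=
        (mul_le_mul_of_nonneg_left i1 e0).trans (mul_le_mul_of_nonneg_right hE hWe)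
      have k3 : (w * (1 + e)) * (W * (s * Real.exp s)) ≤ (w * Real.exp e) * (W * (s * Real.exp s)) := by
        apply mul_le_mul_of_nonneg_right _ hWse
        exact mul_le_mul_of_nonneg_left hexp hw.le
      have k4 : (w * e) * (W * Real.exp s) ≤ (w * (e * Real.exp e)) * (W * Real.exp s) := by
        apply mul_le_mul_of_nonneg_right _ hWe
        apply mul_le_mul_of_nonneg_left _ hw.le
        have : 1 ≤ Real.exp e := by linarith
        nlinarith
      calc X * Vp - (X * Vm - E * Vp) = X * (Vp - Vm) + E * Vp := by ring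
        _ ≤ (w * Real.exp e) * (W * (s * Real.exp s)) + (w * (e * Real.exp e)) * (W * Real.exp s) :=
            add_le_add (k1.trans k3) (k2.trans k4)
        _ = w * W * ((e + s) * (Real.exp e * Real.exp s)) := by ring

/-- **The fundamental lemma of the sieve** (Brun-Hooley form). -/
theorem fundamental : ∃ C L : ℝ, 1 ≤ C ∧ 1 ≤ L ∧ ∀ b z : ℕ, 1 ≤ z → ∃ lp lm : ℕ → ℝ,
    (∀ d, |lp d| ≤ 1 ∧ |lm d| ≤ 1) ∧
    (∀ d, lp d ≠ 0 ∨ lm d ≠ 0 → Squarefree d ∧ (∀ p : ℕ, p.Prime → p ∣ d → p ≤ z) ∧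
      1 ≤ d ∧ d ≤ z ^ (4 * b + 6)) ∧
    (∀ n : ℕ, n ≠ 0 → Rough z n → ∑ d ∈ n.divisors, lm d ≤ 1 ∧ 1 ≤ ∑ d ∈ n.divisors, lp d) ∧
    (∀ n : ℕ, n ≠ 0 → ¬ Rough z n → ∑ d ∈ n.divisors, lm d ≤ 0 ∧ 0 ≤ ∑ d ∈ n.divisors, lp d) ∧
    (∀ D : ℕ, z ^ (4 * b + 6) ≤ D →
      Wz z * (1 - C * (L ^ (2 * b + 1) / ((2 * b + 1).factorial : ℝ))) ≤
        ∑ d ∈ Icc 1 D, lm d / (d : ℝ) ∧
      ∑ d ∈ Icc 1 D, lm d / (d : ℝ) ≤ Wz z ∧ Wz z ≤ ∑ d ∈ Icc 1 D, lp d / (d : ℝ) ∧
      ∑ d ∈ Icc 1 D, lp d / (d : ℝ) ≤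
        Wz z * (1 + C * (L ^ (2 * b + 1) / ((2 * b + 1).factorial : ℝ)))) := by
  classical
  obtain ⟨L, hL1, hL⟩ := sum_pp
  have hL0 : 0 ≤ L := by linarith
  set A : ℝ := Real.exp (3 * L) with hA
  set C : ℝ := A * Real.exp (A * Real.exp L) with hC
  have hA1 : 1 ≤ A := by
    rw [hA]
    exact Real.one_le_exp (by linarith)
  have hC1 : 1 ≤ C := by
    have : 1 ≤ Real.exp (A * Real.exp L) := Real.one_le_exp (by positivity)
    rw [hC]
    nlinarith
  refine ⟨C, L, hC1, hL1, fun b z hz => ?_⟩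
  obtain ⟨J, hJ⟩ : ∃ J : ℕ, z < 2 ^ 2 ^ J := by
    refine ⟨z, ?_⟩
    calc z < 2 ^ z := Nat.lt_two_pow_self
      _ ≤ 2 ^ 2 ^ z := Nat.pow_le_pow_right (by norm_num) Nat.lt_two_pow_self.le
  set Fp := (fam J b z).1 with hFp
  set Fm := (fam J b z).2 with hFm
  have mp := fun S (hS : S ∈ Fp) => fam_mem J b z S (Or.inl hS)
  have mm := fun S (hS : S ∈ Fm) => fam_mem J b z S (Or.inr hS)
  have pp1 : PrF Fp := fun S hS p hp => ((mp S hS).1 p hp).2
  have pm1 : PrF Fm := fun S hS p hp => ((mm S hS).1 p hp).2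
  have hsup : ∀ (F : Finset (Finset ℕ)), (∀ S ∈ F, (∀ p ∈ S, p ≤ z ∧ p.Prime) ∧
      ∏ p ∈ S, p ≤ (z + 1) ^ (4 * b + 6) ∧ (1 ≤ z → ∏ p ∈ S, p ≤ z ^ (4 * b + 6))) → ∀ d,
      lam F d ≠ 0 → Squarefree d ∧ (∀ p : ℕ, p.Prime → p ∣ d → p ≤ z) ∧
      1 ≤ d ∧ d ≤ z ^ (4 * b + 6) := by
    intro F hF d hd
    obtain ⟨h1, S, hS, rfl⟩ := lam_ne_zero hd
    obtain ⟨h2, -, h3⟩ := hF S hS
    refine ⟨h1, fun p hp hpd => ?_, prod_pos fun p hp => (h2 p hp).2.pos, h3 hz⟩
    obtain ⟨q, hq, hpq⟩ := (hp.prime.dvd_finsetProd_iff _).1 hpd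
    rw [(Nat.prime_dvd_prime_iff_eq hp (h2 q hq).2).1 hpq]
    exact (h2 q hq).1
  have hgn : ∀ n p : ℕ, 0 ≤ gn n p ∧ gn n p ≤ 1 := by
    intro n p
    unfold gn
    split_ifs
    · exact ⟨zero_le_one, le_rfl⟩
    · exact ⟨le_rfl, zero_le_one⟩
  refine ⟨lam Fp, lam Fm, fun d => ⟨lam_abs_le _ _, lam_abs_le _ _⟩, ?_, ?_, ?_, ?_⟩
  · rintro d (hd | hd)
    · exact hsup Fp mp d hd
    · exact hsup Fm mm d hd
  · intro n hn hr
    have h1 := val_bounds (hgn n) J b z hJ
    rw [prod_gn, if_pos hr, val_gn pp1 hn, val_gn pm1 hn] at h1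
    exact h1
  · intro n hn hr
    have h1 := val_bounds (hgn n) J b z hJ
    rw [prod_gn, if_neg hr, val_gn pp1 hn, val_gn pm1 hn] at h1
    exact h1
  · intro D hD
    obtain ⟨h1, h2⟩ := val_err hL1 hL J b z hJ
    have hes := es_le hL1 J b
    have hs0 := es_nonneg hL0 J b
    have h3 : ∀ F : Finset (Finset ℕ), (∀ S ∈ F, ∀ p ∈ S, p ≤ z ∧ p.Prime) →
        val F (fun p => 1 / (p : ℝ)) = val F (fun p => if p.Prime then 1 / (p : ℝ) else 0) := by
      intro F hF
      unfold val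
      refine sum_congr rfl fun S hS => prod_congr rfl fun p hp => ?_
      simp only [if_pos (hF S hS p hp).2]
    have hg : ∀ p : ℕ, 0 ≤ (if p.Prime then 1 / (p : ℝ) else 0) ∧
        (if p.Prime then 1 / (p : ℝ) else 0) ≤ 1 := by
      intro p
      split_ifs with hp
      · have := inv_prime hp
        exact ⟨this.1, by linarith⟩
      · exact ⟨le_rfl, zero_le_one⟩
    have h4 := val_bounds hg J b z hJ
    rw [← h3 _ fun S hS => (mm S hS).1, ← h3 _ fun S hS => (mp S hS).1] at h4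
    have h5 : ∏ p ∈ prs z, (1 - if p.Prime then 1 / (p : ℝ) else 0) = Wz z := by
      unfold Wz
      exact prod_congr rfl fun p hp => by rw [if_pos (mem_prs.1 hp).2]
    rw [h5] at h4
    have v1 := val_inv pp1 (D := D) fun S hS => ((mp S hS).2.2 hz).trans hD
    have v2 := val_inv pm1 (D := D) fun S hS => ((mm S hS).2.2 hz).trans hD
    rw [← v1, ← v2]
    set Vp := val Fp (fun p => 1 / (p : ℝ))
    set Vm := val Fm (fun p => 1 / (p : ℝ))
    have hW := Wz_pos z
    set q := L ^ (2 * b + 1) / ((2 * b + 1).factorial : ℝ) with hq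
    have hq0 : 0 ≤ q := by
      rw [hq]
      positivity
    have hqe : q ≤ Real.exp L := by
      have := Real.pow_div_factorial_le_exp L hL0 (2 * b + 1)
      exact this
    have h6 : es L J b * Real.exp (es L J b) ≤ C * q := by
      have h7 : es L J b ≤ A * Real.exp L := hes.trans (mul_le_mul_of_nonneg_left hqe (by linarith))
      calc es L J b * Real.exp (es L J b) ≤ (A * q) * Real.exp (A * Real.exp L) :=
            mul_le_mul hes (Real.exp_le_exp.2 h7) (Real.exp_pos _).le (by positivity)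
        _ = C * q := by rw [hC]; ring
    have h7 : Vp - Vm ≤ Wz z * (C * q) := h2.trans (mul_le_mul_of_nonneg_left h6 hW.le)
    refine ⟨?_, h4.1, h4.2, ?_⟩
    · have := h4.2
      linarith
    · have := h4.1
      linarith

end Pool.Agent.Work.MP_a8fbd7_nt.OX.ID
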