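import Mathlib

/-!
# Bonferroni inequalities with weights

`el P g k` is the elementary symmetric sum of degree `k` of the numbers `g p`, `p ∈ P`, and `bon P g m`
is the partial sum `∑_{k ≤ m} (-1)^k el P g k` of `∏ (1 - g p)`.
-/

set_option autoImplicit false

namespace Pool.Agent.Work.MP_a8fbd7_nt.OX.ID

open Finset

/-- The elementary symmetric sum of degree `k`. -/
noncomputable def el (P : Finset ℕ) (g : ℕ → ℝ) (k : ℕ) : ℝ :=
  ∑ S ∈ P.powersetCard k, ∏ p ∈ S, g p

/-- The partial sum of `∏ (1 - g p)`. -/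
noncomputable def bon (P : Finset ℕ) (g : ℕ → ℝ) (m : ℕ) : ℝ :=
  ∑ k ∈ range (m + 1), (-1 : ℝ) ^ k * el P g k

theorem el_zero (P : Finset ℕ) (g : ℕ → ℝ) : el P g 0 = 1 := by
  unfold el
  simp

theorem el_empty_succ (g : ℕ → ℝ) (k : ℕ) : el ∅ g (k + 1) = 0 := by
  unfold el
  rw [powersetCard_eq_empty.2 (by simp), sum_empty]

theorem el_insert {P : Finset ℕ} {a : ℕ} (ha : a ∉ P) (g : ℕ → ℝ) (k : ℕ) :
    el (insert a P) g (k + 1) = el P g (k + 1) + g a * el P g k := by
  unfold el
  rw [powersetCard_succ_insert ha, sum_union, sum_image, mul_sum]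
  · congr 1
    refine sum_congr rfl fun S hS => ?_
    have : a ∉ S := fun h => ha ((mem_powersetCard.1 hS).1 h)
    rw [prod_insert this]
  · intro S hS T hT h
    have hS' : a ∉ S := fun h => ha ((mem_powersetCard.1 hS).1 h)
    have hT' : a ∉ T := fun h => ha ((mem_powersetCard.1 hT).1 h)
    have := congrArg (fun X : Finset ℕ => X.erase a) h
    simpa only [erase_insert hS', erase_insert hT'] using this
  · rw [disjoint_left]
    intro S hS hS'
    obtain ⟨T, -, rfl⟩ := mem_image.1 hS'
    exact ha ((mem_powersetCard.1 hS).1 (mem_insert_self a T))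

theorem el_nonneg {P : Finset ℕ} {g : ℕ → ℝ} (hg : ∀ p ∈ P, 0 ≤ g p) (k : ℕ) : 0 ≤ el P g k :=
  sum_nonneg fun _ hS => prod_nonneg fun p hp => hg p ((mem_powersetCard.1 hS).1 hp)

theorem el_le {P : Finset ℕ} {g : ℕ → ℝ} (hg : ∀ p ∈ P, 0 ≤ g p) (k : ℕ) :
    el P g k ≤ (∑ p ∈ P, g p) ^ k / (k.factorial : ℝ) := by
  induction P using Finset.induction_on generalizing k with
  | empty =>
    cases k with
    | zero => simp [el_zero]
    | succ k =>
      rw [el_empty_succ]
      simp
  | insert a P ha ih =>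
    have hga : 0 ≤ g a := hg a (mem_insert_self _ _)
    have hgP : ∀ p ∈ P, 0 ≤ g p := fun p hp => hg p (mem_insert_of_mem hp)
    cases k with
    | zero => simp [el_zero]
    | succ k =>
      rw [el_insert ha, sum_insert ha]
      have h1 := ih hgP (k + 1)
      have h2 := mul_le_mul_of_nonneg_left (ih hgP k) hga
      have hx : 0 ≤ ∑ p ∈ P, g p := sum_nonneg hgP
      refine (add_le_add h1 h2).trans ?_
      set x := ∑ p ∈ P, g p
      have hf : (0 : ℝ) < (k.factorial : ℝ) := by exact_mod_cast k.factorial_pos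
      have hk : (0 : ℝ) < (k : ℝ) + 1 := by positivity
      have h3 : ((k + 1).factorial : ℝ) = (k + 1) * (k.factorial : ℝ) := by
        rw [Nat.factorial_succ]
        push_cast
        ring
      rw [h3, ← sub_nonneg]
      have h4 : (g a + x) ^ (k + 1) / ((k + 1) * (k.factorial : ℝ)) -
          (x ^ (k + 1) / ((k + 1) * (k.factorial : ℝ)) + g a * (x ^ k / (k.factorial : ℝ))) =
          ((g a + x) ^ (k + 1) - (x ^ (k + 1) + (k + 1) * g a * x ^ k)) /
            ((k + 1) * (k.factorial : ℝ)) := by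
        field_simp
      rw [h4]
      refine div_nonneg ?_ (by positivity)
      have h5 : ∀ n : ℕ, x ^ n + n * g a * x ^ (n - 1) ≤ (g a + x) ^ n := by
        intro n
        induction n with
        | zero => simp
        | succ n ihn =>
          rw [pow_succ (g a + x)]
          have h6 : 0 ≤ g a + x := by positivity
          have h7 := mul_le_mul_of_nonneg_right ihn h6
          refine le_trans ?_ h7
          rcases Nat.eq_zero_or_pos n with rfl | hn
          · simp
            linarith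
          · obtain ⟨m, rfl⟩ : ∃ m, n = m + 1 := ⟨n - 1, by omega⟩
            simp only [Nat.add_sub_cancel]
            push_cast
            have h8 : 0 ≤ (m + 1 : ℝ) * g a ^ 2 * x ^ m := by positivity
            have h9 : (x ^ (m + 1) + (m + 1 : ℝ) * g a * x ^ m) * (g a + x) =
                x ^ (m + 1 + 1) + (m + 1 + 1 : ℝ) * g a * x ^ (m + 1) +
                  (m + 1 : ℝ) * g a ^ 2 * x ^ m := by ring
            linarith
      have := h5 (k + 1)
      simp only [Nat.add_sub_cancel] at this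
      push_cast at this
      linarith

theorem bon_zero (P : Finset ℕ) (g : ℕ → ℝ) : bon P g 0 = 1 := by
  unfold bon
  simp [el_zero]

theorem bon_succ (P : Finset ℕ) (g : ℕ → ℝ) (m : ℕ) :
    bon P g (m + 1) = bon P g m + (-1) ^ (m + 1) * el P g (m + 1) := by
  unfold bon
  rw [sum_range_succ]

theorem bon_empty (g : ℕ → ℝ) (m : ℕ) : bon ∅ g m = 1 := by
  induction m with
  | zero => exact bon_zero _ _
  | succ m ih => rw [bon_succ, ih, el_empty_succ, mul_zero, add_zero]

theorem bon_insert {P : Finset ℕ} {a : ℕ} (ha : a ∉ P) (g : ℕ → ℝ) (m : ℕ) :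
    bon (insert a P) g (m + 1) = bon P g (m + 1) - g a * bon P g m := by
  induction m with
  | zero =>
    rw [bon_succ, bon_succ, bon_zero, bon_zero, el_insert ha, el_zero]
    ring
  | succ m ih =>
    rw [bon_succ, ih, bon_succ P g (m + 1), bon_succ P g m, el_insert ha]
    ring

/-- The signs of the remainders. -/
theorem bon_sign {P : Finset ℕ} {g : ℕ → ℝ} (hg : ∀ p ∈ P, 0 ≤ g p ∧ g p ≤ 1) (m : ℕ) :
    0 ≤ (-1 : ℝ) ^ m * (bon P g m - ∏ p ∈ P, (1 - g p)) := by
  induction P using Finset.induction_on generalizing m with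
  | empty => simp [bon_empty]
  | insert a P ha ih =>
    have hga := hg a (mem_insert_self _ _)
    have hgP : ∀ p ∈ P, 0 ≤ g p ∧ g p ≤ 1 := fun p hp => hg p (mem_insert_of_mem hp)
    have h0 : 0 ≤ ∏ p ∈ P, (1 - g p) := prod_nonneg fun p hp => by linarith [(hgP p hp).2]
    have h1 : ∏ p ∈ P, (1 - g p) ≤ 1 :=
      prod_le_one (fun p hp => by linarith [(hgP p hp).2]) fun p hp => by linarith [(hgP p hp).1]
    rw [prod_insert ha]
    cases m with
    | zero =>
      rw [bon_zero, pow_zero, one_mul]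
      nlinarith
    | succ m =>
      rw [bon_insert ha]
      have h2 := ih hgP (m + 1)
      have h3 := ih hgP m
      have h4 := mul_nonneg hga.1 h3
      have h5 : (-1 : ℝ) ^ (m + 1) * (bon P g (m + 1) - g a * bon P g m -
          (1 - g a) * ∏ p ∈ P, (1 - g p)) =
          (-1 : ℝ) ^ (m + 1) * (bon P g (m + 1) - ∏ p ∈ P, (1 - g p)) +
          g a * ((-1 : ℝ) ^ m * (bon P g m - ∏ p ∈ P, (1 - g p))) := by
        rw [pow_succ]
        ring
      rw [h5]
      exact add_nonneg h2 h4

/-- The upper bound. -/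
theorem le_bon {P : Finset ℕ} {g : ℕ → ℝ} (hg : ∀ p ∈ P, 0 ≤ g p ∧ g p ≤ 1) (b : ℕ) :
    ∏ p ∈ P, (1 - g p) ≤ bon P g (2 * b) := by
  have h := bon_sign hg (2 * b)
  rw [pow_mul, neg_one_sq, one_pow, one_mul] at h
  linarith

/-- The lower bound. -/
theorem bon_le {P : Finset ℕ} {g : ℕ → ℝ} (hg : ∀ p ∈ P, 0 ≤ g p ∧ g p ≤ 1) (b : ℕ) :
    bon P g (2 * b) - el P g (2 * b + 1) ≤ ∏ p ∈ P, (1 - g p) := by
  have h := bon_sign hg (2 * b + 1)
  rw [bon_succ, pow_succ, pow_mul, neg_one_sq, one_pow] at h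
  linarith

end Pool.Agent.Work.MP_a8fbd7_nt.OX.ID
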