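import Pool.Agent.Work.MP_a8fbd7_nt.OX.ID.Bonf
import Pool.Agent.Work.MP_a8fbd7_nt.OX.ID.Linnik

/-!
# The families of the Brun-Hooley sieve

`fp J b z` and `fm J b z` are families of sets of primes `≤ z`; the weights are the Möbius function
restricted to the products of the members.
-/

set_option autoImplicit false

namespace Pool.Agent.Work.MP_a8fbd7_nt.OX.ID

open Finset

/-- The primes `≤ z`. -/
def prs (z : ℕ) : Finset ℕ := (range (z + 1)).filter Nat.Prime

/-- The primes in `(√z, z]`. -/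
def pp (z : ℕ) : Finset ℕ := (prs z).filter fun p => Nat.sqrt z < p

theorem mem_prs {z p : ℕ} : p ∈ prs z ↔ p ≤ z ∧ p.Prime := by
  unfold prs
  rw [mem_filter, mem_range, Nat.lt_succ_iff]

theorem mem_pp {z p : ℕ} : p ∈ pp z ↔ (p ≤ z ∧ p.Prime) ∧ Nat.sqrt z < p := by
  unfold pp
  rw [mem_filter, mem_prs]

theorem prs_eq (z : ℕ) : prs z = pp z ∪ prs (Nat.sqrt z) := by
  ext p
  rw [mem_union, mem_pp, mem_prs, mem_prs]
  have := Nat.sqrt_le_self z
  constructor
  · intro h
    rcases Nat.lt_or_ge (Nat.sqrt z) p with h1 | h1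
    · exact Or.inl ⟨h, h1⟩
    · exact Or.inr ⟨h1, h.2⟩
  · rintro (h | h)
    · exact h.1
    · exact ⟨h.1.trans this, h.2⟩

theorem disj_pp (z : ℕ) : Disjoint (pp z) (prs (Nat.sqrt z)) := by
  rw [disjoint_left]
  intro p h1 h2
  rw [mem_pp] at h1
  rw [mem_prs] at h2
  omega

theorem prs_small {z : ℕ} (hz : z < 2) : prs z = ∅ := by
  rw [eq_empty_iff_forall_notMem]
  intro p hp
  rw [mem_prs] at hp
  have := hp.2.two_le
  omega

theorem prod_prs (z : ℕ) (h : ℕ → ℝ) :
    ∏ p ∈ prs z, h p = (∏ p ∈ pp z, h p) * ∏ p ∈ prs (Nat.sqrt z), h p := by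
  rw [prs_eq, prod_union (disj_pp z)]

/-- All unions `A ∪ B`. -/
def cup (X Y : Finset (Finset ℕ)) : Finset (Finset ℕ) := (X ×ˢ Y).image fun x => x.1 ∪ x.2

/-- Subsets with at most `m` elements. -/
def sle (P : Finset ℕ) (m : ℕ) : Finset (Finset ℕ) := (range (m + 1)).biUnion fun k => P.powersetCard k

theorem mem_sle {P : Finset ℕ} {m : ℕ} {A : Finset ℕ} : A ∈ sle P m ↔ A ⊆ P ∧ A.card ≤ m := by
  unfold sle
  rw [mem_biUnion]
  constructor
  · rintro ⟨k, hk, h⟩
    rw [mem_range] at hk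
    rw [mem_powersetCard] at h
    exact ⟨h.1, by omega⟩
  · rintro ⟨h1, h2⟩
    exact ⟨A.card, mem_range.2 (by omega), mem_powersetCard.2 ⟨h1, rfl⟩⟩

/-- The families: `(fp J b z, fm J b z)`. -/
def fam : ℕ → ℕ → ℕ → Finset (Finset ℕ) × Finset (Finset ℕ)
  | 0, _, _ => ({∅}, {∅})
  | J + 1, b, z =>
    (cup (sle (pp z) (2 * b)) (fam J (b + 1) (Nat.sqrt z)).1,
      cup (sle (pp z) (2 * b)) (fam J (b + 1) (Nat.sqrt z)).2 ∪
        cup ((pp z).powersetCard (2 * b + 1)) (fam J (b + 1) (Nat.sqrt z)).1)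

/-- The value of a family at the weights `g`. -/
noncomputable def val (F : Finset (Finset ℕ)) (g : ℕ → ℝ) : ℝ := ∑ S ∈ F, ∏ p ∈ S, (-g p)

theorem val_cup {X Y : Finset (Finset ℕ)} {s : ℕ} (hX : ∀ A ∈ X, ∀ p ∈ A, s < p)
    (hY : ∀ B ∈ Y, ∀ p ∈ B, p ≤ s) (g : ℕ → ℝ) : val (cup X Y) g = val X g * val Y g := by
  unfold val cup
  rw [sum_image, sum_product, sum_mul_sum]
  · refine sum_congr rfl fun A hA => sum_congr rfl fun B hB => ?_
    apply prod_union
    rw [disjoint_left]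
    intro p h1 h2
    have := hX A hA p h1
    have := hY B hB p h2
    omega
  · rintro ⟨A, B⟩ h1 ⟨A', B'⟩ h2 h
    rw [mem_coe, mem_product] at h1 h2
    have key : ∀ (A B : Finset ℕ), A ∈ X → B ∈ Y → (A ∪ B).filter (fun p => s < p) = A ∧
        (A ∪ B).filter (fun p => p ≤ s) = B := by
      intro A B hA hB
      constructor
      · ext p
        rw [mem_filter, mem_union]
        constructor
        · rintro ⟨h | h, h'⟩
          · exact h
          · have := hY B hB p h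
            omega
        · exact fun h => ⟨Or.inl h, hX A hA p h⟩
      · ext p
        rw [mem_filter, mem_union]
        constructor
        · rintro ⟨h | h, h'⟩
          · have := hX A hA p h
            omega
          · exact h
        · exact fun h => ⟨Or.inr h, hY B hB p h⟩
    have k1 := key A B h1.1 h1.2
    have k2 := key A' B' h2.1 h2.2
    simp only at h
    rw [h] at k1
    rw [Prod.mk.injEq]
    exact ⟨k1.1.symm.trans k2.1, k1.2.symm.trans k2.2⟩

theorem val_powersetCard (P : Finset ℕ) (k : ℕ) (g : ℕ → ℝ) :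
    val (P.powersetCard k) g = (-1) ^ k * el P g k := by
  unfold val el
  rw [mul_sum]
  refine sum_congr rfl fun S hS => ?_
  rw [prod_neg, (mem_powersetCard.1 hS).2]

theorem val_sle (P : Finset ℕ) (m : ℕ) (g : ℕ → ℝ) : val (sle P m) g = bon P g m := by
  unfold bon
  have h : val (sle P m) g = ∑ k ∈ range (m + 1), val (P.powersetCard k) g := by
    unfold val sle
    rw [sum_biUnion]
    intro i _ j _ hij
    rw [Function.onFun, disjoint_left]
    intro S h1 h2
    exact hij ((mem_powersetCard.1 h1).2.symm.trans (mem_powersetCard.1 h2).2)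
  rw [h]
  exact sum_congr rfl fun k _ => val_powersetCard P k g

/-- The members of the families are sets of primes `≤ z` with bounded product. -/
theorem fam_mem : ∀ (J b z : ℕ) (S : Finset ℕ), (S ∈ (fam J b z).1 ∨ S ∈ (fam J b z).2) →
    (∀ p ∈ S, p ≤ z ∧ p.Prime) ∧ ∏ p ∈ S, p ≤ (z + 1) ^ (4 * b + 6) ∧
      (1 ≤ z → ∏ p ∈ S, p ≤ z ^ (4 * b + 6)) := by
  intro J
  induction J with
  | zero =>
    intro b z S hS
    have : S = ∅ := by
      rcases hS with h | h <;> exact mem_singleton.1 h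
    subst this
    refine ⟨by simp, ?_, fun hz => ?_⟩
    · rw [prod_empty]
      exact Nat.one_le_pow _ _ (Nat.succ_pos z)
    · rw [prod_empty]
      exact Nat.one_le_pow _ _ hz
  | succ J ih =>
    intro b z S hS
    have key : ∃ A B : Finset ℕ, S = A ∪ B ∧ A ⊆ pp z ∧ A.card ≤ 2 * b + 1 ∧
        (B ∈ (fam J (b + 1) (Nat.sqrt z)).1 ∨ B ∈ (fam J (b + 1) (Nat.sqrt z)).2) := by
      rcases hS with h | h
      · obtain ⟨⟨A, B⟩, h1, h2⟩ := mem_image.1 h
        rw [mem_product] at h1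
        obtain ⟨h3, h4⟩ := mem_sle.1 h1.1
        exact ⟨A, B, h2.symm, h3, by simp only at h4; omega, Or.inl h1.2⟩
      · rcases mem_union.1 h with h | h
        · obtain ⟨⟨A, B⟩, h1, h2⟩ := mem_image.1 h
          rw [mem_product] at h1
          obtain ⟨h3, h4⟩ := mem_sle.1 h1.1
          exact ⟨A, B, h2.symm, h3, by simp only at h4; omega, Or.inr h1.2⟩
        · obtain ⟨⟨A, B⟩, h1, h2⟩ := mem_image.1 h
          rw [mem_product] at h1
          obtain ⟨h3, h4⟩ := mem_powersetCard.1 h1.1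
          exact ⟨A, B, h2.symm, h3, by simp only at h4; omega, Or.inl h1.2⟩
    obtain ⟨A, B, rfl, hA, hc, hB⟩ := key
    obtain ⟨hB1, -, hB3⟩ := ih (b + 1) (Nat.sqrt z) B hB
    have hsq := Nat.sqrt_le_self z
    have hpr : ∀ p ∈ A ∪ B, p ≤ z ∧ p.Prime := by
      intro p hp
      rcases mem_union.1 hp with h | h
      · exact (mem_pp.1 (hA h)).1
      · exact ⟨(hB1 p h).1.trans hsq, (hB1 p h).2⟩
    have hdisj : Disjoint A B := by
      rw [disjoint_left]
      intro p h1 h2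
      have := (mem_pp.1 (hA h1)).2
      have := (hB1 p h2).1
      omega
    have main : 1 ≤ z → ∏ p ∈ A ∪ B, p ≤ z ^ (4 * b + 6) := by
      intro hz
      have hs1 : 1 ≤ Nat.sqrt z := Nat.sqrt_pos.2 hz
      have h2 := hB3 hs1
      have h3 : (Nat.sqrt z) ^ (4 * (b + 1) + 6) ≤ z ^ (2 * b + 5) := by
        rw [show 4 * (b + 1) + 6 = 2 * (2 * b + 5) by ring, pow_mul]
        exact Nat.pow_le_pow_left (Nat.sqrt_le' z) _
      have h4 : ∏ p ∈ A, p ≤ z ^ (2 * b + 1) := by
        calc ∏ p ∈ A, p ≤ ∏ _p ∈ A, z := prod_le_prod' fun p hp => (mem_pp.1 (hA hp)).1.1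
          _ = z ^ A.card := prod_const _
          _ ≤ z ^ (2 * b + 1) := Nat.pow_le_pow_right hz hc
      rw [prod_union hdisj]
      calc (∏ p ∈ A, p) * ∏ p ∈ B, p ≤ z ^ (2 * b + 1) * z ^ (2 * b + 5) :=
            Nat.mul_le_mul h4 (h2.trans h3)
        _ = z ^ (4 * b + 6) := by rw [← pow_add]; congr 1; ring
    refine ⟨hpr, ?_, main⟩
    rcases Nat.eq_zero_or_pos z with rfl | hz
    · have : A ∪ B = ∅ := by
        rw [eq_empty_iff_forall_notMem]
        intro p hp
        have h1 := hpr p hp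
        have := h1.2.two_le
        omega
      rw [this, prod_empty]
      exact Nat.one_le_pow _ _ (Nat.succ_pos _)
    · exact (main hz).trans (Nat.pow_le_pow_left (Nat.le_succ z) _)

theorem val_fp_succ (J b z : ℕ) (g : ℕ → ℝ) :
    val (fam (J + 1) b z).1 g = bon (pp z) g (2 * b) * val (fam J (b + 1) (Nat.sqrt z)).1 g := by
  rw [← val_sle]
  exact val_cup (fun A hA p hp => (mem_pp.1 ((mem_sle.1 hA).1 hp)).2)
    (fun B hB p hp => ((fam_mem _ _ _ B (Or.inl hB)).1 p hp).1) g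

theorem val_fm_succ (J b z : ℕ) (g : ℕ → ℝ) :
    val (fam (J + 1) b z).2 g = bon (pp z) g (2 * b) * val (fam J (b + 1) (Nat.sqrt z)).2 g -
      el (pp z) g (2 * b + 1) * val (fam J (b + 1) (Nat.sqrt z)).1 g := by
  have h1 := val_cup (X := sle (pp z) (2 * b)) (Y := (fam J (b + 1) (Nat.sqrt z)).2)
    (s := Nat.sqrt z) (fun A hA p hp => (mem_pp.1 ((mem_sle.1 hA).1 hp)).2)
    (fun B hB p hp => ((fam_mem _ _ _ B (Or.inr hB)).1 p hp).1) g
  have h2 := val_cup (X := (pp z).powersetCard (2 * b + 1)) (Y := (fam J (b + 1) (Nat.sqrt z)).1)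
    (s := Nat.sqrt z) (fun A hA p hp => (mem_pp.1 ((mem_powersetCard.1 hA).1 hp)).2)
    (fun B hB p hp => ((fam_mem _ _ _ B (Or.inl hB)).1 p hp).1) g
  have hd : Disjoint (cup (sle (pp z) (2 * b)) (fam J (b + 1) (Nat.sqrt z)).2)
      (cup ((pp z).powersetCard (2 * b + 1)) (fam J (b + 1) (Nat.sqrt z)).1) := by
    rw [disjoint_left]
    intro S hS hS'
    obtain ⟨⟨A, B⟩, h3, h4⟩ := mem_image.1 hS
    obtain ⟨⟨A', B'⟩, h5, h6⟩ := mem_image.1 hS'
    rw [mem_product] at h3 h5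
    have key : ∀ A B : Finset ℕ, A ⊆ pp z → (∀ p ∈ B, p ≤ Nat.sqrt z) →
        (A ∪ B).filter (fun p => Nat.sqrt z < p) = A := by
      intro A B hA hB
      ext p
      rw [mem_filter, mem_union]
      constructor
      · rintro ⟨h | h, h'⟩
        · exact h
        · have := hB p h
          omega
      · exact fun h => ⟨Or.inl h, (mem_pp.1 (hA h)).2⟩
    have k1 := key A B (mem_sle.1 h3.1).1 fun p hp => ((fam_mem _ _ _ B (Or.inr h3.2)).1 p hp).1
    have k2 := key A' B' (mem_powersetCard.1 h5.1).1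
      fun p hp => ((fam_mem _ _ _ B' (Or.inl h5.2)).1 p hp).1
    simp only at h4 h6
    rw [h4] at k1
    rw [h6] at k2
    have k3 : A = A' := k1.symm.trans k2
    have k4 := (mem_sle.1 h3.1).2
    have k5 := (mem_powersetCard.1 h5.1).2
    simp only at k4 k5
    rw [k3] at k4
    omega
  have h3 : val (fam (J + 1) b z).2 g = val (cup (sle (pp z) (2 * b)) (fam J (b + 1) (Nat.sqrt z)).2) g +
      val (cup ((pp z).powersetCard (2 * b + 1)) (fam J (b + 1) (Nat.sqrt z)).1) g := by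
    unfold val
    exact sum_union hd
  rw [h3, h1, h2, val_sle, val_powersetCard, pow_succ, pow_mul, neg_one_sq, one_pow]
  ring

/-- The values of the families are upper and lower bounds for `∏ (1 - g p)`. -/
theorem val_bounds {g : ℕ → ℝ} (hg : ∀ p, 0 ≤ g p ∧ g p ≤ 1) : ∀ (J b z : ℕ),
    z < 2 ^ 2 ^ J → val (fam J b z).2 g ≤ ∏ p ∈ prs z, (1 - g p) ∧
      ∏ p ∈ prs z, (1 - g p) ≤ val (fam J b z).1 g := by
  intro J
  induction J with
  | zero =>
    intro b z hz
    have : prs z = ∅ := prs_small (by simpa using hz)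
    rw [this, prod_empty]
    have h : ∀ F : Finset (Finset ℕ), F = {∅} → val F g = 1 := by
      intro F hF
      rw [hF]
      unfold val
      simp
    exact ⟨(h _ rfl).le, (h _ rfl).ge⟩
  | succ J ih =>
    intro b z hz
    have hs : Nat.sqrt z < 2 ^ 2 ^ J := by
      rw [Nat.sqrt_lt', ← pow_mul, ← pow_succ]
      exact hz
    obtain ⟨i1, i2⟩ := ih (b + 1) (Nat.sqrt z) hs
    have hg' : ∀ p ∈ pp z, 0 ≤ g p ∧ g p ≤ 1 := fun p _ => hg p
    have b1 := le_bon hg' b
    have b2 := bon_le hg' b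
    have e0 := el_nonneg (fun p hp => (hg' p hp).1) (2 * b + 1)
    have x0 : 0 ≤ ∏ p ∈ pp z, (1 - g p) := prod_nonneg fun p _ => by linarith [(hg p).2]
    have y0 : 0 ≤ ∏ p ∈ prs (Nat.sqrt z), (1 - g p) := prod_nonneg fun p _ => by
      linarith [(hg p).2]
    rw [val_fp_succ, val_fm_succ, prod_prs z fun p => 1 - g p]
    set X := bon (pp z) g (2 * b)
    set E := el (pp z) g (2 * b + 1)
    set x := ∏ p ∈ pp z, (1 - g p)
    set y := ∏ p ∈ prs (Nat.sqrt z), (1 - g p)
    set Vp := val (fam J (b + 1) (Nat.sqrt z)).1 g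
    set Vm := val (fam J (b + 1) (Nat.sqrt z)).2 g
    have X0 : 0 ≤ X := x0.trans b1
    constructor
    · nlinarith [mul_le_mul_of_nonneg_left i1 X0, mul_le_mul_of_nonneg_left i2 e0,
        mul_le_mul_of_nonneg_right b2 y0]
    · nlinarith [mul_le_mul_of_nonneg_left i2 X0, mul_le_mul_of_nonneg_right b1 y0]

end Pool.Agent.Work.MP_a8fbd7_nt.OX.ID
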